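import Mathlib
import Pool.Agent.Helper22.ETModel

set_option autoImplicit false

/-!
# Randomized linear decision trees for Exact Triangle

The algorithm knows all edge flags and a string of random bits; it accesses the weights only
through signs of affine forms in few weights. All computation is free.
-/

namespace Pool.Agent.Helper95.FL

open Pool.Agent.Helper22.ETModel

/-- A linear query with coefficients `a i j` and constant `b`: it asks for the sign of
`b + ∑ a i j * w i j`. -/
structure Query (n : ℕ) where
  a : Fin n → Fin n → ℤ
  b : ℤ

/-- The admissible queries with parameter `c`. The constant is at most `n ^ c` in absolute value,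
and either at most four coefficients are nonzero, and they are at most `n ^ c` in absolute value,
or the sum of the absolute values of all coefficients is at most five. -/
def Query.OK {n : ℕ} (c : ℕ) (q : Query n) : Prop :=
  |q.b| ≤ (n : ℤ) ^ c ∧
    (((Finset.univ.filter fun p : Fin n × Fin n => q.a p.1 p.2 ≠ 0).card ≤ 4 ∧
        ∀ i j, |q.a i j| ≤ (n : ℤ) ^ c) ∨
      ∑ i, ∑ j, |q.a i j| ≤ 5)

/-- A randomized algorithm on `n`-vertex instances that asks `D` queries and uses `R` uniformly
random bits. The next query and the final output are arbitrary functions of the flags, the random
bits and the answers received so far. -/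
structure Alg (n D R : ℕ) where
  next : (Fin n → Fin n → Bool) → (Fin R → Bool) → List SignType → Query n
  out : (Fin n → Fin n → Bool) → (Fin R → Bool) → List SignType → Bool

variable {n D R : ℕ}

/-- All queries are admissible. -/
def Alg.Admissible (A : Alg n D R) (c : ℕ) : Prop :=
  ∀ fl ρ ans, (A.next fl ρ ans).OK c

/-- The answer to a query: the sign of the affine form. -/
noncomputable def Query.ans (q : Query n) (I : Inst n) : SignType := SignType.sign (evalZ q.a q.b I)

/-- The answers to the first `t` queries. -/
noncomputable def Alg.run (A : Alg n D R) (I : Inst n) (ρ : Fin R → Bool) : ℕ → List SignType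
  | 0 => []
  | t + 1 => A.run I ρ t ++ [(A.next I.flag ρ (A.run I ρ t)).ans I]

/-- Output after `D` queries. -/
noncomputable def Alg.output (A : Alg n D R) (I : Inst n) (ρ : Fin R → Bool) : Bool :=
  A.out I.flag ρ (A.run I ρ D)

open Classical in
/-- The algorithm decides Exact Triangle with bounded error: on every valid instance the output
is correct with probability at least `2/3` over the random bits. -/
def Alg.Decides (A : Alg n D R) : Prop :=
  ∀ I : Inst n, I.Valid →
    2 * 2 ^ R ≤ 3 * (Finset.univ.filter fun ρ : Fin R → Bool => (A.output I ρ = true ↔ I.Yes)).card

end Pool.Agent.Helper95.FL
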