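import Mathlib
import Pool.Agent.Helper95.FL.Model

set_option autoImplicit false

/-!
# Definitions for the lower bound for linear decision trees (project FL)
-/

namespace Pool.Agent.Helper95.FL

open Pool.Agent.Helper22.ETModel
open scoped Classical

/-! ### Complexes -/

/-- A chamber complex of rank three: chambers `X`, vertices `V`, every chamber has one vertex of
each type. -/
structure Cx (X V : Type) where
  vert : Fin 3 → X → V
  ty : V → Fin 3
  ty_vert : ∀ t x, ty (vert t x) = t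

namespace Cx

variable {X V : Type}

/-- The edge of type `s` of a chamber: the ordered pair of the vertices of types `s+1`, `s+2`. -/
def edge (𝒞 : Cx X V) (s : Fin 3) (x : X) : V × V := (𝒞.vert (s + 1) x, 𝒞.vert (s + 2) x)

def IsEdge (𝒞 : Cx X V) (e : V × V) : Prop := ∃ s x, 𝒞.edge s x = e

/-- Two vertices of different types are adjacent if they belong to a common chamber. -/
def Adj (𝒞 : Cx X V) (v w : V) : Prop :=
  𝒞.ty v ≠ 𝒞.ty w ∧ ∃ x, 𝒞.vert (𝒞.ty v) x = v ∧ 𝒞.vert (𝒞.ty w) x = w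

/-- Two chambers are neighbours (possibly equal) if they have a common edge. -/
def Nb (𝒞 : Cx X V) (x y : X) : Prop := ∃ s, 𝒞.edge s x = 𝒞.edge s y

/-- The sum of the weights of the three edges of a chamber. -/
def h (𝒞 : Cx X V) (W : V × V → ℤ) (x : X) : ℤ := ∑ s, W (𝒞.edge s x)

/-- The form of a chamber: coefficient one on its three edges. -/
noncomputable def chi (𝒞 : Cx X V) (x : X) : V × V → ℤ :=
  fun e => if ∃ s, 𝒞.edge s x = e then 1 else 0

/-- `N` disjoint copies. -/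
def copies (𝒞 : Cx X V) (N : ℕ) : Cx (Fin N × X) (Fin N × V) where
  vert t x := (x.1, 𝒞.vert t x.2)
  ty v := 𝒞.ty v.2
  ty_vert t x := 𝒞.ty_vert t x.2

/-- The basic forms and the chambers they touch. -/
inductive Basic (𝒞 : Cx X V) : (V × V → ℤ) → Finset X → Prop
  | one (x : X) : Basic 𝒞 (𝒞.chi x) {x}
  | two (x y : X) (hne : x ≠ y) (hxy : 𝒞.Nb x y) : Basic 𝒞 (𝒞.chi x - 𝒞.chi y) {x, y}
  | three (x y z : X) (hxy : 𝒞.Nb x y) (hyz : 𝒞.Nb y z) :
      Basic 𝒞 (𝒞.chi x - 𝒞.chi y + 𝒞.chi z) {x, y, z}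

end Cx

/-! ### Linear forms on pairs of vertices -/

variable {V : Type} [Fintype V]

/-- Value of a form. -/
def pair (f W : V × V → ℤ) : ℤ := ∑ e, f e * W e

/-- Net flow into a vertex. -/
def dvg (f : V × V → ℤ) (v : V) : ℤ := ∑ w, f (w, v) - ∑ w, f (v, w)

/-- Circulations. -/
def Circul (f : V × V → ℤ) : Prop := ∀ v, dvg f v = 0

/-- At most four nonzero coefficients, or sum of absolute values at most five. -/
def Small (f : V × V → ℤ) : Prop :=
  (Finset.univ.filter fun e => f e ≠ 0).card ≤ 4 ∨ ∑ e, |f e| ≤ 5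

/-- The coboundary of a potential. -/
def pot {V : Type} (P : V → ℤ) : V × V → ℤ := fun e => P e.2 - P e.1

/-- The form is supported on edges of the complex. -/
def Supp {X V : Type} (𝒞 : Cx X V) (f : V × V → ℤ) : Prop := ∀ e, f e ≠ 0 → 𝒞.IsEdge e

/-! ### The properties of the complex that are needed -/

structure Cx.Nice {X V : Type} [Fintype X] (𝒞 : Cx X V) (d k : ℕ) : Prop where
  /-- a chamber is determined by its vertices -/
  inj : ∀ x y, (∀ t, 𝒞.vert t x = 𝒞.vert t y) → x = y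
  /-- every edge lies in exactly `d` chambers -/
  star : ∀ s x, (Finset.univ.filter fun y => 𝒞.edge s y = 𝒞.edge s x).card = d
  clique3 : ∀ u v w, 𝒞.Adj u v → 𝒞.Adj v w → 𝒞.Adj u w →
    ∃ x, 𝒞.vert (𝒞.ty u) x = u ∧ 𝒞.vert (𝒞.ty v) x = v ∧ 𝒞.vert (𝒞.ty w) x = w
  chord4 : ∀ v₁ v₂ v₃ v₄, v₁ ≠ v₃ → v₂ ≠ v₄ →
    𝒞.Adj v₁ v₂ → 𝒞.Adj v₂ v₃ → 𝒞.Adj v₃ v₄ → 𝒞.Adj v₄ v₁ → 𝒞.Adj v₁ v₃ ∨ 𝒞.Adj v₂ v₄
  chord5 : ∀ v₁ v₂ v₃ v₄ v₅, v₁ ≠ v₃ → v₂ ≠ v₄ → v₃ ≠ v₅ → v₄ ≠ v₁ → v₅ ≠ v₂ →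
    𝒞.Adj v₁ v₂ → 𝒞.Adj v₂ v₃ → 𝒞.Adj v₃ v₄ → 𝒞.Adj v₄ v₅ → 𝒞.Adj v₅ v₁ →
    𝒞.Adj v₁ v₃ ∨ 𝒞.Adj v₂ v₄ ∨ 𝒞.Adj v₃ v₅ ∨ 𝒞.Adj v₄ v₁ ∨ 𝒞.Adj v₅ v₂
  /-- one chamber can be changed a lot, all the others only a little -/
  flip : ∀ (x₀ : X) (η : ℕ), ∃ δ : V × V → ℤ, 𝒞.h δ x₀ = -(3 * 2 ^ k * η) ∧
    (∀ x, x ≠ x₀ → |𝒞.h δ x| ≤ η) ∧ ∀ e, |δ e| ≤ 2 ^ k * η

/-! ### Embeddings into the complete tripartite graph, and the instances -/

/-- A map of the vertices into `Fin n` that separates the types. -/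
structure Emb {X V : Type} (𝒞 : Cx X V) (n : ℕ) where
  ν : V → Fin n
  sep : ∀ v w, ν v = ν w → 𝒞.ty v = 𝒞.ty w

namespace Emb

variable {X V : Type} {𝒞 : Cx X V} {n : ℕ}

def img (E : Emb 𝒞 n) (e : V × V) : Fin n × Fin n := (E.ν e.1, E.ν e.2)

/-- An edge whose image is not the image of another edge. -/
def Good (E : Emb 𝒞 n) (e : V × V) : Prop :=
  𝒞.IsEdge e ∧ ∀ e', 𝒞.IsEdge e' → E.img e' = E.img e → e' = e

/-- The instance whose edges are the images of the good edges, with weights given by `W`. -/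
noncomputable def inst [Fintype V] (E : Emb 𝒞 n) (W : V × V → ℤ) : Inst n where
  flag i j := decide (∃ e, E.Good e ∧ (E.img e = (i, j) ∨ E.img e = (j, i)))
  wt i j := ∑ e, if E.Good e ∧ (E.img e = (i, j) ∨ E.img e = (j, i)) then W e else 0

/-- The form on the edges of the complex given by a query. -/
noncomputable def qf (E : Emb 𝒞 n) (q : Query n) : V × V → ℤ :=
  fun e => if E.Good e then q.a (E.img e).1 (E.img e).2 + q.a (E.img e).2 (E.img e).1 else 0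

end Emb

/-! ### Groups with the geometry -/

/-- Words in the groups `U s`: lists of pairs `(s, u)`, `u ∈ U s`, `u ≠ 1`, neighbouring letters
have different types. -/
def Word {G : Type} [Group G] (U : Fin 3 → Subgroup G) (l : List (Fin 3 × G)) : Prop :=
  (∀ p ∈ l, p.2 ∈ U p.1 ∧ p.2 ≠ 1) ∧ l.IsChain fun p q => p.1 ≠ q.1

def prodW {G : Type} [Group G] (l : List (Fin 3 × G)) : G := (l.map Prod.snd).prod

/-- The geometric properties of a group with three subgroups `U s` and three subgroups `H t`. -/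
structure Geo {G : Type} [Group G] (U H : Fin 3 → Subgroup G) (m : ℕ) : Prop where
  inter : ∀ a b l : Fin 3, a ≠ b → a ≠ l → b ≠ l → H a ⊓ H b = U l
  l3 : ∀ a b l : Fin 3, a ≠ b → a ≠ l → b ≠ l → ∀ x ∈ H b, ∀ y ∈ H l, x * y ∈ H a →
    ∃ u ∈ U a, ∃ v ∈ U b, y = u * v
  l4I : ∀ a b l : Fin 3, a ≠ b → a ≠ l → b ≠ l →
    ∀ x ∈ H l, ∀ y ∈ H b, ∀ x' ∈ H b, ∀ y' ∈ H l, x * y = x' * y' → x' ∈ U a ∨ y' ∈ U a
  l4II : ∀ a b l : Fin 3, a ≠ b → a ≠ l → b ≠ l →
    ∀ x ∈ H b, ∀ y ∈ H l, ∀ x' ∈ H a, ∀ y' ∈ H b, x * y = x' * y' →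
      x' ∈ U l ∨ ∃ u ∈ U l, ∃ v ∈ U a, y' = u * v
  l5 : ∀ a b l : Fin 3, a ≠ b → a ≠ l → b ≠ l →
    ∀ x ∈ H l, ∀ y ∈ H a, ∀ z ∈ H b, ∀ x' ∈ H b, ∀ y' ∈ H a, x * y * z = x' * y' →
      y' ∈ U l ∨ (∃ u ∈ U a, ∃ v ∈ U l, x' = u * v) ∨ ∃ u ∈ U a, ∃ v ∈ U b, x = u * v
  girth : ∀ l : List (Fin 3 × G), Word U l → l ≠ [] → l.length ≤ m → prodW l ≠ 1

/-- The complex of a group with subgroups `H t`: chambers are the elements, the vertex of type `t`
of `g` is the coset `g H_t`. -/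
def grpCx {G : Type} [Group G] (H : Fin 3 → Subgroup G) : Cx G (Σ t : Fin 3, G ⧸ H t) where
  vert t g := ⟨t, (g : G ⧸ H t)⟩
  ty v := v.1
  ty_vert _ _ := rfl

/-! ### The field data -/

/-- A field with an involution `st`, a commuting automorphism `τ` and an element `θ` which is not a
root of a nonzero polynomial of degree less than `m` with coefficients fixed by `τ`. -/
structure FD (K : Type) [Field K] (m : ℕ) where
  st : K ≃+* K
  τ : K ≃+* K
  θ : K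
  st_st : ∀ x, st (st x) = x
  comm : ∀ x, st (τ x) = τ (st x)
  st_θ : st θ = θ
  τ_θ : τ θ ≠ θ
  θ_ne : θ ≠ 0
  gen : ∀ f : Polynomial K, (∀ i, τ (f.coeff i) = f.coeff i) → f.natDegree < m →
    f.eval θ = 0 → f = 0

namespace FD

variable {K : Type} [Field K] {m : ℕ}

/-- Conjugate transpose. -/
def ct (F : FD K m) (C : Matrix (Fin 3) (Fin 3) K) : Matrix (Fin 3) (Fin 3) K :=
  fun i j => F.st (C j i)

/-- `τ` applied to all entries. -/
def tm (F : FD K m) (C : Matrix (Fin 3) (Fin 3) K) : Matrix (Fin 3) (Fin 3) K :=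
  fun i j => F.τ (C i j)

/-- The Gram matrix at the point `ε`: diagonal entries `1`, and the entry `i j` is `θ` or `τ θ`
according to the coordinate of `ε` at the third index `-(i + j)`. -/
def A (F : FD K m) (ε : Fin 3 → Bool) : Matrix (Fin 3) (Fin 3) K :=
  fun i j => if i = j then 1 else if ε (-(i + j)) then F.τ F.θ else F.θ

/-- The unitary circle group at `ε`. -/
structure CG (F : FD K m) (ε : Fin 3 → Bool) where
  C : Matrix (Fin 3) (Fin 3) K
  h1 : C + F.ct C + F.ct C * F.A ε * C = 0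
  h2 : C + F.ct C + C * F.A ε * F.ct C = 0

end FD

end Pool.Agent.Helper95.FL
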