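import Mathlib
import Pool.Agent.Helper95.FL.Defs

set_option autoImplicit false

/-!
# The circle groups, and the subgroups `U s`, `H t`
-/

namespace Pool.Agent.Helper95.FL

namespace FD

variable {K : Type} [Field K] {m : ℕ} (F : FD K m)

abbrev Mat3 (K : Type) := Matrix (Fin 3) (Fin 3) K

lemma ct_apply (C : Mat3 K) (i j : Fin 3) : F.ct C i j = F.st (C j i) := rfl

lemma tm_apply (C : Mat3 K) (i j : Fin 3) : F.tm C i j = F.τ (C i j) := rfl

lemma ct_add (C D : Mat3 K) : F.ct (C + D) = F.ct C + F.ct D := by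
  ext i j; simp [ct]

lemma ct_mul (C D : Mat3 K) : F.ct (C * D) = F.ct D * F.ct C := by
  ext i j
  simp only [ct, Matrix.mul_apply, map_sum, map_mul]
  exact Finset.sum_congr rfl fun x _ => mul_comm _ _

lemma ct_ct (C : Mat3 K) : F.ct (F.ct C) = C := by
  ext i j; simp [ct, F.st_st]

lemma ct_zero : F.ct (0 : Mat3 K) = 0 := by
  ext i j; simp [ct]

lemma ct_A (ε : Fin 3 → Bool) : F.ct (F.A ε) = F.A ε := by
  ext i j
  simp only [ct, A]
  by_cases h : i = j
  · subst h; simp
  · have h' : j ≠ i := fun e => h e.symm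
    rw [if_neg h, if_neg h', add_comm j i]
    by_cases h2 : ε (-(i + j)) = true
    · rw [if_pos h2, F.comm, F.st_θ]
    · rw [if_neg h2, F.st_θ]

lemma tm_add (C D : Mat3 K) : F.tm (C + D) = F.tm C + F.tm D := by
  ext i j; simp [tm]

lemma tm_mul (C D : Mat3 K) : F.tm (C * D) = F.tm C * F.tm D := by
  ext i j
  simp [tm, Matrix.mul_apply]

lemma tm_zero : F.tm (0 : Mat3 K) = 0 := by
  ext i j; simp [tm]

lemma tm_one : F.tm (1 : Mat3 K) = 1 := by
  ext i j
  by_cases h : i = j
  · subst h; simp [tm]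
  · simp [tm, Matrix.one_apply_ne h]

lemma tm_ct (C : Mat3 K) : F.tm (F.ct C) = F.ct (F.tm C) := by
  ext i j; simp [tm, ct, F.comm]

lemma tm_det (C : Mat3 K) : (F.tm C).det = F.τ C.det := by
  have : F.tm C = (F.τ : K →+* K).mapMatrix C := by
    ext i j; rfl
  rw [this, ← RingHom.map_det]; rfl

variable {F} {ε : Fin 3 → Bool}

@[ext] lemma CG.ext {x y : F.CG ε} (h : x.C = y.C) : x = y := by
  cases x; cases y; simp only at h; subst h; rfl

noncomputable instance : Mul (F.CG ε) where
  mul x y :=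
    { C := x.C + y.C + x.C * F.A ε * y.C
      h1 := by
        have hx := x.h1
        have hy := y.h1
        simp only [ct_add, ct_mul, ct_A]
        calc _ = (x.C + F.ct x.C + F.ct x.C * F.A ε * x.C)
              + (y.C + F.ct y.C + F.ct y.C * F.A ε * y.C)
              + (x.C + F.ct x.C + F.ct x.C * F.A ε * x.C) * F.A ε * y.C
              + F.ct y.C * F.A ε * (x.C + F.ct x.C + F.ct x.C * F.A ε * x.C)
              + F.ct y.C * F.A ε * (x.C + F.ct x.C + F.ct x.C * F.A ε * x.C) * F.A ε * y.C := by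
                noncomm_ring
          _ = 0 := by rw [hx, hy]; simp
      h2 := by
        have hx := x.h2
        have hy := y.h2
        simp only [ct_add, ct_mul, ct_A]
        calc _ = (x.C + F.ct x.C + x.C * F.A ε * F.ct x.C)
              + (y.C + F.ct y.C + y.C * F.A ε * F.ct y.C)
              + x.C * F.A ε * (y.C + F.ct y.C + y.C * F.A ε * F.ct y.C)
              + (y.C + F.ct y.C + y.C * F.A ε * F.ct y.C) * F.A ε * F.ct x.C
              + x.C * F.A ε * (y.C + F.ct y.C + y.C * F.A ε * F.ct y.C) * F.A ε * F.ct x.C := by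
                noncomm_ring
          _ = 0 := by rw [hx, hy]; simp }

noncomputable instance : One (F.CG ε) where
  one := { C := 0, h1 := by simp [ct_zero], h2 := by simp [ct_zero] }

noncomputable instance : Inv (F.CG ε) where
  inv x :=
    { C := F.ct x.C
      h1 := by rw [ct_ct]; have := x.h2; rw [add_comm (F.ct x.C) x.C]; exact this
      h2 := by rw [ct_ct]; have := x.h1; rw [add_comm (F.ct x.C) x.C]; exact this }

lemma CG.mul_C (x y : F.CG ε) : (x * y).C = x.C + y.C + x.C * F.A ε * y.C := rfl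
lemma CG.one_C : (1 : F.CG ε).C = 0 := rfl
lemma CG.inv_C (x : F.CG ε) : (x⁻¹).C = F.ct x.C := rfl

noncomputable instance : Group (F.CG ε) where
  mul_assoc x y z := by
    ext1; simp only [CG.mul_C]; noncomm_ring
  one_mul x := by ext1; simp [CG.mul_C, CG.one_C]
  mul_one x := by ext1; simp [CG.mul_C, CG.one_C]
  inv_mul_cancel x := by
    ext1; simp only [CG.mul_C, CG.one_C, CG.inv_C]
    have := x.h1
    rw [add_comm (F.ct x.C) x.C]; exact this

/-- The group of chambers. -/
abbrev Ch (F : FD K m) := ∀ ε : Fin 3 → Bool, F.CG ε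

/-- The matrix of a chamber at a point. -/
def mat (g : F.Ch) (ε : Fin 3 → Bool) : Mat3 K := (g ε).C

lemma mat_mul (g h : F.Ch) (ε : Fin 3 → Bool) :
    mat (g * h) ε = mat g ε + mat h ε + mat g ε * F.A ε * mat h ε := rfl
lemma mat_one (ε : Fin 3 → Bool) : mat (1 : F.Ch) ε = 0 := rfl
lemma mat_inv (g : F.Ch) (ε : Fin 3 → Bool) : mat g⁻¹ ε = F.ct (mat g ε) := rfl

lemma ch_ext {g h : F.Ch} (H : ∀ ε, mat g ε = mat h ε) : g = h := by
  funext ε; exact CG.ext (H ε)

/-- The matrix with the single entry `c` at the place `(s, s)`. -/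
def sg (s : Fin 3) (c : K) : Mat3 K := fun i j => if i = s ∧ j = s then c else 0

lemma sg_zero (s : Fin 3) : sg s (0 : K) = 0 := by ext i j; simp [sg]

lemma sg_add (s : Fin 3) (c d : K) : sg s (c + d) = sg s c + sg s d := by
  ext i j; by_cases h : i = s ∧ j = s <;> simp [sg, h]

lemma sg_mul (s : Fin 3) (c d : K) (ε : Fin 3 → Bool) :
    sg s c * F.A ε * sg s d = sg s (c * d) := by
  ext i j
  have hA : F.A ε s s = 1 := by simp [A]
  simp only [Matrix.mul_apply, sg]
  by_cases hi : i = s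
  · by_cases hj : j = s
    · subst hi; subst hj
      simp [Finset.sum_ite_eq', hA]
    · simp [hj]
  · simp [hi]

lemma ct_sg (s : Fin 3) (c : K) : F.ct (sg s c) = sg s (F.st c) := by
  ext i j
  simp only [ct, sg]
  by_cases h : i = s ∧ j = s
  · simp [h]
  · rw [if_neg h, if_neg (fun e => h ⟨e.2, e.1⟩)]; simp

variable (F)

/-- The subgroup `U s`: constant single entry matrices `c E_ss` with `c` fixed by `τ`. -/
noncomputable def U (s : Fin 3) : Subgroup F.Ch where
  carrier := {g | ∃ c, F.τ c = c ∧ ∀ ε, mat g ε = sg s c}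
  mul_mem' := by
    rintro g h ⟨c, hc, hg⟩ ⟨d, hd, hh⟩
    refine ⟨c + d + c * d, by simp [hc, hd], fun ε => ?_⟩
    rw [mat_mul, hg, hh, sg_mul, ← sg_add, ← sg_add]
  one_mem' := ⟨0, by simp, fun ε => by rw [mat_one, sg_zero]⟩
  inv_mem' := by
    rintro g ⟨c, hc, hg⟩
    refine ⟨F.st c, by rw [← F.comm, hc], fun ε => ?_⟩
    rw [mat_inv, hg, ct_sg]

/-- Membership in `H t`: at the point `ε` the matrix is `C₀` or `τ C₀`, according to the coordinate
`ε t`, it vanishes in the row and in the column `t`, and its determinant is fixed by `τ`. -/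
def InH (t : Fin 3) (g : F.Ch) (C₀ : Mat3 K) : Prop :=
  (∀ i, C₀ i t = 0 ∧ C₀ t i = 0) ∧ (∀ ε, mat g ε = if ε t then F.tm C₀ else C₀) ∧
    F.τ (1 + C₀ * F.A (fun _ => false)).det = (1 + C₀ * F.A (fun _ => false)).det

end FD

end Pool.Agent.Helper95.FL
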