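import Mathlib
import Pool.Agent.Helper95.FL.Circle

set_option autoImplicit false

/-!
# The subgroups `H t`
-/

namespace Pool.Agent.Helper95.FL

namespace FD

variable {K : Type} [Field K] {m : ℕ} (F : FD K m)

/-- The base point. -/
def z0 : Fin 3 → Bool := fun _ => false

lemma third_eq {a b t : Fin 3} (hab : a ≠ b) (ha : a ≠ t) (hb : b ≠ t) : -(a + b) = t := by
  revert a b t; decide

/-- Between indices different from `t` the Gram matrix at `ε` is the Gram matrix at the base
point or its image under `τ`. -/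
lemma A_off (t : Fin 3) (ε : Fin 3 → Bool) {a b : Fin 3} (ha : a ≠ t) (hb : b ≠ t) :
    F.A ε a b = if ε t then F.τ (F.A z0 a b) else F.A z0 a b := by
  by_cases h : a = b
  · subst h
    by_cases h2 : ε t = true <;> simp [A, h2]
  · have h3 := third_eq h ha hb
    by_cases h2 : ε t = true <;> simp [A, h, h3, h2, z0]

/-- Supported off the row and the column `t`. -/
def Off (t : Fin 3) (C : Mat3 K) : Prop := ∀ i, C i t = 0 ∧ C t i = 0

lemma off_mul {t : Fin 3} {C D : Mat3 K} (hC : Off t C) (hD : Off t D) (ε : Fin 3 → Bool) :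
    (if ε t then F.tm C else C) * F.A ε * (if ε t then F.tm D else D)
      = if ε t then F.tm (C * F.A z0 * D) else C * F.A z0 * D := by
  have key : ∀ (C D : Mat3 K), Off t C → Off t D → ∀ (B B' : Mat3 K),
      (∀ a b, a ≠ t → b ≠ t → B a b = B' a b) → C * B * D = C * B' * D := by
    intro C D hC hD B B' hB
    ext i j
    simp only [Matrix.mul_apply, Finset.sum_mul]
    refine Finset.sum_congr rfl fun b _ => Finset.sum_congr rfl fun a _ => ?_
    by_cases ha : a = t
    · subst ha; simp [(hC i).1]
    · by_cases hb : b = t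
      · subst hb; simp [(hD j).2]
      · rw [hB a b ha hb]
  by_cases h2 : ε t = true
  · simp only [h2, if_true]
    rw [F.tm_mul, F.tm_mul]
    apply key
    · intro i; simp [tm, (hC i).1, (hC i).2]
    · intro i; simp [tm, (hD i).1, (hD i).2]
    · intro a b ha hb
      rw [F.A_off t ε ha hb, h2]; rfl
  · simp only [h2]
    apply key C D hC hD
    intro a b ha hb
    rw [F.A_off t ε ha hb]; simp [h2]

lemma off_cmul {t : Fin 3} {C D : Mat3 K} (hC : Off t C) (hD : Off t D) :
    Off t (C + D + C * F.A z0 * D) := by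
  intro i
  constructor
  · simp only [Matrix.add_apply, (hC i).1, (hD i).1, zero_add]
    rw [Matrix.mul_apply]
    exact Finset.sum_eq_zero fun x _ => by rw [(hD x).1, mul_zero]
  · simp only [Matrix.add_apply, (hC i).2, (hD i).2, zero_add]
    rw [Matrix.mul_assoc, Matrix.mul_apply]
    exact Finset.sum_eq_zero fun x _ => by rw [(hC x).2, zero_mul]

lemma det_cmul (C D : Mat3 K) :
    (1 + (C + D + C * F.A z0 * D) * F.A z0).det
      = (1 + C * F.A z0).det * (1 + D * F.A z0).det := by
  rw [← Matrix.det_mul]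
  congr 1
  noncomm_ring

/-- The subgroup `H t`. -/
noncomputable def H (t : Fin 3) : Subgroup F.Ch where
  carrier := {g | ∃ C₀, InH F t g C₀}
  mul_mem' := by
    rintro g h ⟨C, hC1, hC2, hC3⟩ ⟨D, hD1, hD2, hD3⟩
    refine ⟨C + D + C * F.A z0 * D, F.off_cmul hC1 hD1, fun ε => ?_, ?_⟩
    · rw [mat_mul, hC2, hD2, F.off_mul hC1 hD1 ε]
      by_cases h2 : ε t = true
      · simp only [h2, if_true, tm_add]
      · simp only [h2]; rfl
    · rw [show (fun _ => false : Fin 3 → Bool) = z0 from rfl, F.det_cmul, map_mul]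
      rw [show (fun _ => false : Fin 3 → Bool) = z0 from rfl] at hC3 hD3
      rw [hC3, hD3]
  one_mem' := by
    refine ⟨0, fun i => by simp, fun ε => ?_, by simp⟩
    rw [mat_one, tm_zero]; simp
  inv_mem' := by
    rintro g ⟨C, hC1, hC2, hC3⟩
    refine ⟨F.ct C, fun i => ?_, fun ε => ?_, ?_⟩
    · simp [ct, (hC1 i).1, (hC1 i).2]
    · rw [mat_inv, hC2]
      by_cases h2 : ε t = true
      · simp only [h2, if_true, tm_ct]
      · simp [h2]
    · have h0 : mat g z0 = C := by rw [hC2]; simp [z0]
      have h2 := (g z0).h2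
      have h2' : C + F.ct C + C * F.A z0 * F.ct C = 0 := by rw [← h0]; exact h2
      have hd := F.det_cmul C (F.ct C)
      rw [h2'] at hd
      simp only [zero_mul, add_zero, Matrix.det_one] at hd
      rw [show (fun _ => false : Fin 3 → Bool) = z0 from rfl] at hC3 ⊢
      have hne : (1 + C * F.A z0).det ≠ 0 := by
        intro h; rw [h, zero_mul] at hd; exact one_ne_zero hd
      have : (1 + F.ct C * F.A z0).det = ((1 + C * F.A z0).det)⁻¹ :=
        eq_inv_of_mul_eq_one_right hd.symm
      rw [this, map_inv₀, hC3]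

end FD

end Pool.Agent.Helper95.FL
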