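import Mathlib
import Pool.Agent.Helper95.FL.HSub

set_option autoImplicit false

/-!
# Typed statements of project FL, part G (the concrete group)

Every statement is a `Prop`; a piece is a theorem of this type (or of the type
`St... → ... → St...` when the description of the piece says that other statements may be used).
-/

namespace Pool.Agent.Helper95.FL

open FD

/-- G-Z. An element of `H t` whose matrix has a zero at the place `(j, j)` lies in `U i`. -/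
def StZ : Prop :=
  ∀ (K : Type) [Field K] (m : ℕ) (F : FD K m) (t i j : Fin 3), t ≠ i → t ≠ j → i ≠ j →
    ∀ (g : F.Ch) (C : Mat3 K), F.InH t g C → C j j = 0 → g ∈ F.U i

/-- G-T. A triangular element of `H t` with one diagonal entry fixed by `τ`. -/
def StT : Prop :=
  ∀ (K : Type) [Field K] (m : ℕ) (F : FD K m) (t i j : Fin 3), t ≠ i → t ≠ j → i ≠ j →
    ∀ (g : F.Ch) (C : Mat3 K), F.InH t g C → C j i = 0 →
      (F.τ (C i i) = C i i ∨ F.τ (C j j) = C j j) →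
      ∃ u ∈ F.U i, ∃ v ∈ F.U j, g = u * v

/-- G-I. Intersections. -/
def StInter : Prop :=
  ∀ (K : Type) [Field K] (m : ℕ) (F : FD K m) (a b l : Fin 3), a ≠ b → a ≠ l → b ≠ l →
    F.H a ⊓ F.H b = F.U l

/-- G-3. Uses `StT`. -/
def StL3 : Prop :=
  ∀ (K : Type) [Field K] (m : ℕ) (F : FD K m) (a b l : Fin 3), a ≠ b → a ≠ l → b ≠ l →
    ∀ x ∈ F.H b, ∀ y ∈ F.H l, x * y ∈ F.H a → ∃ u ∈ F.U a, ∃ v ∈ F.U b, y = u * v

/-- G-4I. Uses `StZ`. -/
def StL4I : Prop :=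
  ∀ (K : Type) [Field K] (m : ℕ) (F : FD K m) (a b l : Fin 3), a ≠ b → a ≠ l → b ≠ l →
    ∀ x ∈ F.H l, ∀ y ∈ F.H b, ∀ x' ∈ F.H b, ∀ y' ∈ F.H l, x * y = x' * y' →
      x' ∈ F.U a ∨ y' ∈ F.U a

/-- G-4II. Uses `StZ` and `StT`. -/
def StL4II : Prop :=
  ∀ (K : Type) [Field K] (m : ℕ) (F : FD K m) (a b l : Fin 3), a ≠ b → a ≠ l → b ≠ l →
    ∀ x ∈ F.H b, ∀ y ∈ F.H l, ∀ x' ∈ F.H a, ∀ y' ∈ F.H b, x * y = x' * y' →
      x' ∈ F.U l ∨ ∃ u ∈ F.U l, ∃ v ∈ F.U a, y' = u * v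

/-- G-5. Uses `StZ` and `StT`. -/
def StL5 : Prop :=
  ∀ (K : Type) [Field K] (m : ℕ) (F : FD K m) (a b l : Fin 3), a ≠ b → a ≠ l → b ≠ l →
    ∀ x ∈ F.H l, ∀ y ∈ F.H a, ∀ z ∈ F.H b, ∀ x' ∈ F.H b, ∀ y' ∈ F.H a, x * y * z = x' * y' →
      y' ∈ F.U l ∨ (∃ u ∈ F.U a, ∃ v ∈ F.U l, x' = u * v) ∨ ∃ u ∈ F.U a, ∃ v ∈ F.U b, x = u * v

/-- G-W. Nonempty words of length at most `m` are nontrivial. -/
def StGirth : Prop :=
  ∀ (K : Type) [Field K] (m : ℕ) (F : FD K m) (l : List (Fin 3 × F.Ch)),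
    Word F.U l → l ≠ [] → l.length ≤ m → prodW l ≠ 1

/-- G-C. The number of elements of `U s`. -/
def StCardU : Prop :=
  ∀ (K : Type) [Field K] (m : ℕ) (F : FD K m) (s : Fin 3),
    Nat.card (F.U s) = Nat.card {c : K // F.τ c = c ∧ c + F.st c + F.st c * c = 0}

/-- G-B. The number of chambers. -/
def StCardCh : Prop :=
  ∀ (K : Type) [Field K] [Fintype K] (m : ℕ) (F : FD K m),
    Finite F.Ch ∧ Nat.card F.Ch ≤ Fintype.card K ^ 72

/-- G-F. Existence of the field data. -/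
def StField : Prop :=
  ∀ p m : ℕ, p.Prime → Odd m → 3 ≤ m →
    ∃ (K : Type) (_ : Field K) (_ : Fintype K) (F : FD K m), Fintype.card K = p ^ (2 * m) ∧
      Nat.card {c : K // F.τ c = c ∧ c + F.st c + F.st c * c = 0} = p + 1

end Pool.Agent.Helper95.FL
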