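import Mathlib
import Pool.Agent.Helper95.FL.Defs

set_option autoImplicit false

/-!
# Typed statements of project FL, parts C (complex of a group), A (forms), I (instances),
P (packing), N (numbers)
-/

namespace Pool.Agent.Helper95.FL

open Pool.Agent.Helper22.ETModel
open scoped Classical

/-! ### Further definitions -/

/-- The edge between two vertices of different types, traversed from `v` to `w`. -/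
noncomputable def Cx.el {X V : Type} (𝒞 : Cx X V) (v w : V) : V × V → ℤ :=
  fun e => if 𝒞.ty w = 𝒞.ty v + 1 ∧ e = (v, w) then 1
    else if 𝒞.ty v = 𝒞.ty w + 1 ∧ e = (w, v) then -1 else 0

noncomputable def Cx.cyc3 {X V : Type} (𝒞 : Cx X V) (u v w : V) : V × V → ℤ :=
  𝒞.el u v + 𝒞.el v w + 𝒞.el w u

noncomputable def Cx.cyc4 {X V : Type} (𝒞 : Cx X V) (v₁ v₂ v₃ v₄ : V) : V × V → ℤ :=
  𝒞.el v₁ v₂ + 𝒞.el v₂ v₃ + 𝒞.el v₃ v₄ + 𝒞.el v₄ v₁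

noncomputable def Cx.cyc5 {X V : Type} (𝒞 : Cx X V) (v₁ v₂ v₃ v₄ v₅ : V) : V × V → ℤ :=
  𝒞.el v₁ v₂ + 𝒞.el v₂ v₃ + 𝒞.el v₃ v₄ + 𝒞.el v₄ v₅ + 𝒞.el v₅ v₁

/-- The closed walks of length 3, 4, 5 without repetitions. -/
def Cx.Is3 {X V : Type} (𝒞 : Cx X V) (u v w : V) : Prop :=
  𝒞.Adj u v ∧ 𝒞.Adj v w ∧ 𝒞.Adj w u

def Cx.Is4 {X V : Type} (𝒞 : Cx X V) (v₁ v₂ v₃ v₄ : V) : Prop :=
  v₁ ≠ v₃ ∧ v₂ ≠ v₄ ∧ 𝒞.Adj v₁ v₂ ∧ 𝒞.Adj v₂ v₃ ∧ 𝒞.Adj v₃ v₄ ∧ 𝒞.Adj v₄ v₁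

def Cx.Is5 {X V : Type} (𝒞 : Cx X V) (v₁ v₂ v₃ v₄ v₅ : V) : Prop :=
  (v₁ ≠ v₃ ∧ v₂ ≠ v₄ ∧ v₃ ≠ v₅ ∧ v₄ ≠ v₁ ∧ v₅ ≠ v₂) ∧
    𝒞.Adj v₁ v₂ ∧ 𝒞.Adj v₂ v₃ ∧ 𝒞.Adj v₃ v₄ ∧ 𝒞.Adj v₄ v₅ ∧ 𝒞.Adj v₅ v₁

/-- The forms `χ_x - χ_y` and `χ_x - χ_y + χ_z`. -/
noncomputable def Cx.forms {X V : Type} [Fintype X] (𝒞 : Cx X V) : Finset (V × V → ℤ) :=
  ((Finset.univ.filter fun p : X × X => p.1 ≠ p.2 ∧ 𝒞.Nb p.1 p.2).image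
      fun p => 𝒞.chi p.1 - 𝒞.chi p.2) ∪
    ((Finset.univ.filter fun p : X × X × X => 𝒞.Nb p.1 p.2.1 ∧ 𝒞.Nb p.2.1 p.2.2).image
      fun p => 𝒞.chi p.1 - 𝒞.chi p.2.1 + 𝒞.chi p.2.2)

/-- Girth. -/
def Girth {G : Type} [Group G] (U : Fin 3 → Subgroup G) (m : ℕ) : Prop :=
  ∀ l : List (Fin 3 × G), Word U l → l ≠ [] → l.length ≤ m → prodW l ≠ 1

/-! ### Part C: from groups to complexes -/

/-- C-1. -/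
def StInj : Prop :=
  ∀ (G : Type) [Group G] (U H : Fin 3 → Subgroup G) (m : ℕ), Geo U H m → 2 ≤ m →
    ∀ x y : G, (∀ t, (grpCx H).vert t x = (grpCx H).vert t y) → x = y

/-- C-2. -/
def StStar : Prop :=
  ∀ (G : Type) [Group G] [Fintype G] (U H : Fin 3 → Subgroup G) (m : ℕ), Geo U H m →
    ∀ (s : Fin 3) (x : G),
      (Finset.univ.filter fun y => (grpCx H).edge s y = (grpCx H).edge s x).card = Nat.card (U s)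

/-- C-3. -/
def StClique3 : Prop :=
  ∀ (G : Type) [Group G] (U H : Fin 3 → Subgroup G) (m : ℕ), Geo U H m →
    ∀ u v w, (grpCx H).Adj u v → (grpCx H).Adj v w → (grpCx H).Adj u w →
      ∃ x, (grpCx H).vert ((grpCx H).ty u) x = u ∧ (grpCx H).vert ((grpCx H).ty v) x = v ∧
        (grpCx H).vert ((grpCx H).ty w) x = w

/-- C-4. -/
def StChord4 : Prop :=
  ∀ (G : Type) [Group G] (U H : Fin 3 → Subgroup G) (m : ℕ), Geo U H m →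
    ∀ v₁ v₂ v₃ v₄, (grpCx H).Is4 v₁ v₂ v₃ v₄ → (grpCx H).Adj v₁ v₃ ∨ (grpCx H).Adj v₂ v₄

/-- C-5. -/
def StChord5 : Prop :=
  ∀ (G : Type) [Group G] (U H : Fin 3 → Subgroup G) (m : ℕ), Geo U H m →
    ∀ v₁ v₂ v₃ v₄ v₅, (grpCx H).Is5 v₁ v₂ v₃ v₄ v₅ →
      (grpCx H).Adj v₁ v₃ ∨ (grpCx H).Adj v₂ v₄ ∨ (grpCx H).Adj v₃ v₅ ∨ (grpCx H).Adj v₄ v₁ ∨
        (grpCx H).Adj v₅ v₂

/-- C-6. Two short words with the same product have the same length and the same last type. -/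
def StUniq : Prop :=
  ∀ (G : Type) [Group G] (U : Fin 3 → Subgroup G) (m : ℕ), Girth U m →
    ∀ l l' : List (Fin 3 × G), Word U l → Word U l' → prodW l = prodW l' →
      l.length + l'.length ≤ m →
      l.length = l'.length ∧ l.getLast?.map Prod.fst = l'.getLast?.map Prod.fst

/-- C-7. The halving perturbation on the group. Uses `StUniq`. -/
def StHalve : Prop :=
  ∀ (G : Type) [Group G] (U : Fin 3 → Subgroup G) (m k : ℕ), Girth U m → 2 * k + 4 ≤ m →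
    ∀ η : ℕ, ∃ D : G → Fin 3 → ℤ, (∀ g s, ∀ u ∈ U s, D (g * u) s = D g s) ∧
      ∑ s, D 1 s = -(3 * 2 ^ k * η) ∧ (∀ g, g ≠ 1 → |∑ s, D g s| ≤ η) ∧
      ∀ g s, |D g s| ≤ 2 ^ k * η

/-- C-8. The halving perturbation on the complex. Uses `StHalve`. -/
def StFlip : Prop :=
  ∀ (G : Type) [Group G] (U H : Fin 3 → Subgroup G) (m k : ℕ), Geo U H m → 2 * k + 4 ≤ m →
    ∀ (x₀ : G) (η : ℕ), ∃ δ : (Σ t : Fin 3, G ⧸ H t) × (Σ t : Fin 3, G ⧸ H t) → ℤ,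
      (grpCx H).h δ x₀ = -(3 * 2 ^ k * η) ∧ (∀ x, x ≠ x₀ → |(grpCx H).h δ x| ≤ η) ∧
      ∀ e, |δ e| ≤ 2 ^ k * η

/-- C-9. Copies of a nice complex. -/
def StCopies : Prop :=
  ∀ (X V : Type) [Fintype X] (𝒞 : Cx X V) (d k N : ℕ), 𝒞.Nice d k → (𝒞.copies N).Nice d k

/-! ### Part A: forms -/

/-- A-1. -/
def StPairChi : Prop :=
  ∀ (X V : Type) [Fintype V] (𝒞 : Cx X V) (W : V × V → ℤ) (x : X),
    pair (𝒞.chi x) W = 𝒞.h W x ∧ Circul (𝒞.chi x) ∧ Supp 𝒞 (𝒞.chi x)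

/-- A-2. A small circulation is a multiple of a cycle: sum of absolute values at most five. -/
def StCycA : Prop :=
  ∀ (X V : Type) [Fintype V] (𝒞 : Cx X V) (f : V × V → ℤ), Supp 𝒞 f → Circul f → f ≠ 0 →
    ∑ e, |f e| ≤ 5 →
    (∃ u v w, 𝒞.Is3 u v w ∧ f = 𝒞.cyc3 u v w) ∨
    (∃ v₁ v₂ v₃ v₄, 𝒞.Is4 v₁ v₂ v₃ v₄ ∧ f = 𝒞.cyc4 v₁ v₂ v₃ v₄) ∨
    ∃ v₁ v₂ v₃ v₄ v₅, 𝒞.Is5 v₁ v₂ v₃ v₄ v₅ ∧ f = 𝒞.cyc5 v₁ v₂ v₃ v₄ v₅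

/-- A-3. A small circulation is a multiple of a cycle: at most four nonzero coefficients. -/
def StCycB : Prop :=
  ∀ (X V : Type) [Fintype V] (𝒞 : Cx X V) (f : V × V → ℤ), Supp 𝒞 f → Circul f → f ≠ 0 →
    (Finset.univ.filter fun e => f e ≠ 0).card ≤ 4 →
    ∃ α : ℤ, α ≠ 0 ∧
      ((∃ u v w, 𝒞.Is3 u v w ∧ f = fun e => α * 𝒞.cyc3 u v w e) ∨
        ∃ v₁ v₂ v₃ v₄, 𝒞.Is4 v₁ v₂ v₃ v₄ ∧ f = fun e => α * 𝒞.cyc4 v₁ v₂ v₃ v₄ e)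

/-- A-4. -/
def StCyc3 : Prop :=
  ∀ (X V : Type) [Fintype X] (𝒞 : Cx X V) (d k : ℕ), 𝒞.Nice d k → ∀ u v w, 𝒞.Is3 u v w →
    ∃ x, (𝒞.vert (𝒞.ty u) x = u ∧ 𝒞.vert (𝒞.ty v) x = v ∧ 𝒞.vert (𝒞.ty w) x = w) ∧
      ((𝒞.ty v = 𝒞.ty u + 1 ∧ 𝒞.cyc3 u v w = 𝒞.chi x) ∨
        (𝒞.ty u = 𝒞.ty v + 1 ∧ 𝒞.cyc3 u v w = -𝒞.chi x))

/-- A-5. Uses `StCyc3`. -/
def StCyc4 : Prop :=
  ∀ (X V : Type) [Fintype X] (𝒞 : Cx X V) (d k : ℕ), 𝒞.Nice d k → ∀ v₁ v₂ v₃ v₄,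
    𝒞.Is4 v₁ v₂ v₃ v₄ →
    ∃ x y, x ≠ y ∧ 𝒞.Nb x y ∧ 𝒞.cyc4 v₁ v₂ v₃ v₄ = 𝒞.chi x - 𝒞.chi y

/-- A-6. Uses `StCyc3`. -/
def StCyc5 : Prop :=
  ∀ (X V : Type) [Fintype X] (𝒞 : Cx X V) (d k : ℕ), 𝒞.Nice d k → ∀ v₁ v₂ v₃ v₄ v₅,
    𝒞.Is5 v₁ v₂ v₃ v₄ v₅ →
    ∃ x y z, 𝒞.Nb x y ∧ 𝒞.Nb y z ∧
      (𝒞.cyc5 v₁ v₂ v₃ v₄ v₅ = 𝒞.chi x - 𝒞.chi y + 𝒞.chi z ∨
        𝒞.cyc5 v₁ v₂ v₃ v₄ v₅ = -(𝒞.chi x - 𝒞.chi y + 𝒞.chi z))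

/-- A-7. Greedy choice of values. -/
def StGreedy : Prop :=
  ∀ (E : Type) [Fintype E] (F : Finset (E → ℤ)) (K : ℕ),
    (∀ e, (F.filter fun f => f e ≠ 0).card ≤ K) → (∀ f ∈ F, f ≠ 0) →
    ∃ y : E → ℤ, (∀ e, 1 ≤ y e ∧ y e ≤ K + 1) ∧ ∀ f ∈ F, ∑ e, f e * y e ≠ 0

/-- A-8. Every coefficient is nonzero in few of the forms. -/
def StCount : Prop :=
  ∀ (X V : Type) [Fintype X] (𝒞 : Cx X V) (d k : ℕ), 𝒞.Nice d k → 1 ≤ d →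
    (∀ e, (𝒞.forms.filter fun f => f e ≠ 0).card ≤ 33 * d ^ 3) ∧ ∀ f ∈ 𝒞.forms, f ≠ 0

/-- A-9. Generic integer vectors. -/
def StGeneric : Prop :=
  ∀ (V : Type) [Fintype V] (F : Finset (V → ℤ)), (∀ g ∈ F, g ≠ 0) →
    ∃ P : V → ℤ, (∀ v, 0 ≤ P v ∧ P v ≤ F.card) ∧ ∀ g ∈ F, ∑ v, g v * P v ≠ 0

/-- A-10. Generic potentials. Uses `StGeneric`. -/
def StPot : Prop :=
  ∀ (X V : Type) [Fintype V] (𝒞 : Cx X V) (Ne Q : ℕ),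
    (Finset.univ.filter fun e => 𝒞.IsEdge e).card ≤ Ne →
    ∃ P : V → ℤ, (∀ v, 0 ≤ P v ∧ P v ≤ (Ne * (2 * Q + 1)) ^ 4 + (3 * Ne) ^ 5) ∧
      ∀ f, Supp 𝒞 f → Small f → (∀ e, |f e| ≤ Q) → ¬ Circul f → pair f (pot P) ≠ 0

/-! ### Part I: instances and decision trees -/

/-- I-1. -/
def StValid : Prop :=
  ∀ (X V : Type) [Fintype V] (𝒞 : Cx X V) (n : ℕ) (E : Emb 𝒞 n) (W : V × V → ℤ),
    (∀ e, |W e| ≤ (n : ℤ) ^ 300) → (E.inst W).Valid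

/-- I-2. -/
def StEval : Prop :=
  ∀ (X V : Type) [Fintype V] (𝒞 : Cx X V) (n : ℕ) (E : Emb 𝒞 n) (W : V × V → ℤ) (q : Query n),
    evalZ q.a q.b (E.inst W) = q.b + pair (E.qf q) W

/-- I-3. -/
def StQf : Prop :=
  ∀ (X V : Type) [Fintype V] (𝒞 : Cx X V) (n c : ℕ) (E : Emb 𝒞 n) (q : Query n), 3 ≤ n → 1 ≤ c →
    q.OK c → Supp 𝒞 (E.qf q) ∧ Small (E.qf q) ∧ ∀ e, |E.qf q e| ≤ 2 * (n : ℤ) ^ c

/-- I-4. -/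
def StYes : Prop :=
  ∀ (X V : Type) [Fintype V] (𝒞 : Cx X V) (n : ℕ) (E : Emb 𝒞 n) (W : V × V → ℤ) (x₀ : X),
    (∀ s, E.Good (𝒞.edge s x₀)) → 𝒞.h W x₀ = 0 → (E.inst W).Yes

/-- I-5. -/
def StNo : Prop :=
  ∀ (X V : Type) [Fintype V] (𝒞 : Cx X V) (n : ℕ) (E : Emb 𝒞 n) (W : V × V → ℤ),
    (E.inst W).Yes →
    ∃ f, Supp 𝒞 f ∧ Small f ∧ (∀ e, |f e| ≤ 1) ∧ f ≠ 0 ∧ pair f W = 0

/-- I-6. The answers of queries that do not touch `x₀` do not change. Uses `StPairChi`. -/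
def StSign : Prop :=
  ∀ (X V : Type) [Fintype V] (𝒞 : Cx X V) (k : ℕ) (P : V → ℤ) (y δ : V × V → ℤ) (x₀ : X)
    (Y Q L B β : ℤ) (f : V × V → ℤ),
    (∀ e, 1 ≤ y e ∧ y e ≤ Y) → 3 * Y < 2 ^ k → (∀ g τ, 𝒞.Basic g τ → pair g y ≠ 0) →
    (∀ x, x ≠ x₀ → |𝒞.h δ x| ≤ 𝒞.h y x₀) → (∀ e, |δ e| ≤ 2 ^ k * 𝒞.h y x₀) →
    2 ≤ Q → |β| < L → 4 * Q * L * (6 * 2 ^ k * Y) + L ≤ B →
    Small f → (∀ e, |f e| ≤ Q) →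
    (f = 0 ∨ pair f (pot P) ≠ 0 ∨
      ∃ g τ, ∃ α : ℤ, α ≠ 0 ∧ 𝒞.Basic g τ ∧ f = (fun e => α * g e) ∧ x₀ ∉ τ) →
    SignType.sign (β + pair f (fun e => B * pot P e + L * (3 * 2 ^ k * y e) + L * δ e)) =
      SignType.sign (β + pair f (fun e => B * pot P e + L * (3 * 2 ^ k * y e)))

/-- I-7. Nonzero values in the base instance. Uses `StPairChi`. -/
def StNZ : Prop :=
  ∀ (X V : Type) [Fintype V] (𝒞 : Cx X V) (k : ℕ) (P : V → ℤ) (y : V × V → ℤ)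
    (Y Q L B : ℤ) (f : V × V → ℤ),
    (∀ e, 1 ≤ y e ∧ y e ≤ Y) → (∀ g τ, 𝒞.Basic g τ → pair g y ≠ 0) →
    2 ≤ Q → 0 < L → 4 * Q * L * (6 * 2 ^ k * Y) + L ≤ B →
    Small f → (∀ e, |f e| ≤ Q) →
    (pair f (pot P) ≠ 0 ∨ ∃ g τ, ∃ α : ℤ, α ≠ 0 ∧ 𝒞.Basic g τ ∧ f = fun e => α * g e) →
    pair f (fun e => B * pot P e + L * (3 * 2 ^ k * y e)) ≠ 0

/-- I-8. The decision tree argument. -/
def StTree : Prop :=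
  ∀ (n D R c : ℕ) (A : Alg n D R), A.Admissible c → A.Decides →
    ∀ (X : Type) (T : Finset X) (I₀ : Inst n) (I₁ : X → Inst n) (touch : Query n → Finset X),
      I₀.Valid → ¬ I₀.Yes →
      (∀ x ∈ T, (I₁ x).Valid ∧ (I₁ x).Yes ∧ (I₁ x).flag = I₀.flag) →
      (∀ q, (touch q).card ≤ 3) →
      (∀ q : Query n, q.OK c → ∀ x ∈ T, x ∉ touch q → q.ans (I₁ x) = q.ans I₀) →
      T.card ≤ 9 * D

/-! ### Part P: packing -/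

/-- P-1. Number of edges of each type. -/
def StEdgeCount : Prop :=
  ∀ (X V : Type) [Fintype X] (𝒞 : Cx X V) (d : ℕ),
    (∀ s x, (Finset.univ.filter fun y => 𝒞.edge s y = 𝒞.edge s x).card = d) →
    ∀ s, (Finset.univ.image (𝒞.edge s)).card * d = Fintype.card X

/-- P-2. Choosing `N` maps with few collisions. -/
def StSeq : Prop :=
  ∀ (Ω E Z : Type) [Fintype Ω] [Fintype E] [Nonempty Ω] (img : Ω → E → Z),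
    (∀ e z, (Finset.univ.filter fun ω => img ω e = z).card ≤ 1) →
    ∀ N : ℕ, ∃ F : Fin N → Ω,
      (Finset.univ.filter fun p : (Fin N × E) × (Fin N × E) =>
        p.1.1 ≠ p.2.1 ∧ img (F p.1.1) p.1.2 = img (F p.2.1) p.2.2).card * Fintype.card Ω
        ≤ N ^ 2 * Fintype.card E ^ 2

/-- P-3. Packing copies of a complex into the complete tripartite graph.
Uses `StEdgeCount` and `StSeq`. -/
def StPack : Prop :=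
  ∀ (X V : Type) [Fintype X] [Fintype V] (𝒞 : Cx X V) (d : ℕ), 0 < d →
    (∀ s x, (Finset.univ.filter fun y => 𝒞.edge s y = 𝒞.edge s x).card = d) →
    ∀ P n N : ℕ, P.Prime → Fintype.card V ≤ P → 3 * P ≤ n →
      18 * (N * Fintype.card X) ≤ d * (P * (P - 1)) →
      ∃ E : Emb (𝒞.copies N) n, N * Fintype.card X ≤
        2 * (Finset.univ.filter fun x : Fin N × X =>
          ∀ s, E.Good ((𝒞.copies N).edge s x)).card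

/-! ### Part N: numbers -/

/-- N-1. Sizes of the weights. -/
def StSizes : Prop :=
  ∀ (n d k : ℕ), 3 ≤ n → 1 ≤ d → 204 * 2 ^ k * d ^ 3 ≤ n → 1 ≤ k →
    ∀ (Y Q L B M : ℤ), Y = 34 * d ^ 3 → Q = 2 * (n : ℤ) ^ 40 → L = (n : ℤ) ^ 40 + 1 →
      B = 4 * Q * L * (6 * 2 ^ k * Y) + L →
      M = ((n : ℤ) ^ 2 * (2 * (2 * (n : ℤ) ^ 40) + 1)) ^ 4 + (3 * (n : ℤ) ^ 2) ^ 5 →
      B * M + L * (3 * 2 ^ k * Y) + L * (2 ^ k * (3 * Y)) ≤ (n : ℤ) ^ 300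

/-- N-2. Choice of the parameters. -/
def StNum : Prop :=
  ∃ n₀ : ℕ, ∀ n : ℕ, n₀ ≤ n → 3 ≤ n ∧
    ∃ p m k P : ℕ, p.Prime ∧ Odd m ∧ 3 ≤ m ∧ 1 ≤ k ∧ 2 * k + 4 ≤ m ∧
      102 * (p + 1) ^ 3 < 2 ^ k ∧ 204 * 2 ^ k * (p + 1) ^ 3 ≤ n ∧
      P.Prime ∧ 3 * P ≤ n ∧ 18 * p ^ (144 * m) ≤ P ∧
      (n : ℝ) ^ 2 * 2 ^ (Real.sqrt (Real.logb 2 n) / 32) ≤ ((p + 1) * (P * (P - 1)) : ℝ) / 648

end Pool.Agent.Helper95.FL
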