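import Mathlib
import Pool.Agent.Helper95.FL.Stmts2

set_option autoImplicit false

/-!
# The adversary (assembly)
-/

namespace Pool.Agent.Helper95.FL

open Pool.Agent.Helper22.ETModel
open scoped Classical

/-- Classification of the small circulations. -/
lemma classify (hA : StCycA) (hB : StCycB) (h3 : StCyc3) (h4 : StCyc4) (h5 : StCyc5)
    (X V : Type) [Fintype X] [Fintype V] (𝒞 : Cx X V) (d k : ℕ) (hN : 𝒞.Nice d k)
    (f : V × V → ℤ) (hS : Supp 𝒞 f) (hC : Circul f) (hsm : Small f) (hf : f ≠ 0) :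
    ∃ g τ, ∃ α : ℤ, α ≠ 0 ∧ 𝒞.Basic g τ ∧ f = fun e => α * g e := by
  have c3 : ∀ u v w, 𝒞.Is3 u v w → ∀ β : ℤ, β ≠ 0 →
      ∃ g τ, ∃ α : ℤ, α ≠ 0 ∧ 𝒞.Basic g τ ∧ (fun e => β * 𝒞.cyc3 u v w e) = fun e => α * g e := by
    intro u v w hi β hβ
    obtain ⟨x, -, h | h⟩ := h3 X V 𝒞 d k hN u v w hi
    · exact ⟨𝒞.chi x, {x}, β, hβ, Cx.Basic.one x, by rw [h.2]⟩
    · refine ⟨𝒞.chi x, {x}, -β, neg_ne_zero.mpr hβ, Cx.Basic.one x, ?_⟩
      rw [h.2]; funext e; simp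
  have c4 : ∀ v₁ v₂ v₃ v₄, 𝒞.Is4 v₁ v₂ v₃ v₄ → ∀ β : ℤ, β ≠ 0 →
      ∃ g τ, ∃ α : ℤ, α ≠ 0 ∧ 𝒞.Basic g τ ∧
        (fun e => β * 𝒞.cyc4 v₁ v₂ v₃ v₄ e) = fun e => α * g e := by
    intro v₁ v₂ v₃ v₄ hi β hβ
    obtain ⟨x, y, hxy, hnb, h⟩ := h4 X V 𝒞 d k hN v₁ v₂ v₃ v₄ hi
    exact ⟨_, {x, y}, β, hβ, Cx.Basic.two x y hxy hnb, by rw [h]⟩
  rcases hsm with h | h
  · obtain ⟨α, hα, ⟨u, v, w, hi, he⟩ | ⟨v₁, v₂, v₃, v₄, hi, he⟩⟩ := hB X V 𝒞 f hS hC hf h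
    · rw [he]; exact c3 u v w hi α hα
    · rw [he]; exact c4 v₁ v₂ v₃ v₄ hi α hα
  · obtain ⟨u, v, w, hi, he⟩ | ⟨v₁, v₂, v₃, v₄, hi, he⟩ | ⟨v₁, v₂, v₃, v₄, v₅, hi, he⟩ :=
      hA X V 𝒞 f hS hC hf h
    · obtain ⟨g, τ, α, h1, h2, h3⟩ := c3 u v w hi 1 one_ne_zero
      exact ⟨g, τ, α, h1, h2, by rw [he, ← h3]; funext e; simp⟩
    · obtain ⟨g, τ, α, h1, h2, h3⟩ := c4 v₁ v₂ v₃ v₄ hi 1 one_ne_zero
      exact ⟨g, τ, α, h1, h2, by rw [he, ← h3]; funext e; simp⟩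
    · obtain ⟨x, y, z, hxy, hyz, h | h⟩ := h5 X V 𝒞 d k hN v₁ v₂ v₃ v₄ v₅ hi
      · exact ⟨_, {x, y, z}, 1, one_ne_zero, Cx.Basic.three x y z hxy hyz, by
          rw [he, h]; funext e; simp⟩
      · exact ⟨_, {x, y, z}, -1, by norm_num, Cx.Basic.three x y z hxy hyz, by
          rw [he, h]; funext e; simp only [Pi.neg_apply, neg_mul, one_mul]⟩

lemma mem_forms_two {X V : Type} [Fintype X] (𝒞 : Cx X V) {x y : X} (h1 : x ≠ y)
    (h2 : 𝒞.Nb x y) : 𝒞.chi x - 𝒞.chi y ∈ 𝒞.forms := by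
  unfold Cx.forms
  rw [Finset.mem_union]; left
  exact Finset.mem_image.mpr ⟨(x, y), by simp [h1, h2], rfl⟩

lemma mem_forms_three {X V : Type} [Fintype X] (𝒞 : Cx X V) {x y z : X} (h1 : 𝒞.Nb x y)
    (h2 : 𝒞.Nb y z) : 𝒞.chi x - 𝒞.chi y + 𝒞.chi z ∈ 𝒞.forms := by
  unfold Cx.forms
  rw [Finset.mem_union]; right
  exact Finset.mem_image.mpr ⟨(x, y, z), by simp [h1, h2], rfl⟩

lemma basic_card {X V : Type} {𝒞 : Cx X V} {g : V × V → ℤ} {τ : Finset X} (h : 𝒞.Basic g τ) :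
    τ.card ≤ 3 := by
  cases h with
  | one x => simp
  | two x y _ _ => exact (Finset.card_le_two).trans (by norm_num)
  | three x y z _ _ => exact Finset.card_le_three

/-- The statement of the adversary argument. -/
def StAdv : Prop :=
  ∀ (X V : Type) [Fintype X] [Fintype V] (𝒞 : Cx X V) (d k n : ℕ), 𝒞.Nice d k → 1 ≤ d → 1 ≤ k →
    3 ≤ n → 102 * d ^ 3 < 2 ^ k → 204 * 2 ^ k * d ^ 3 ≤ n →
    (Finset.univ.filter fun e => 𝒞.IsEdge e).card ≤ n ^ 2 →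
    ∀ (E : Emb 𝒞 n) (D R : ℕ) (A : Alg n D R), A.Admissible 40 → A.Decides →
      (Finset.univ.filter fun x => ∀ s, E.Good (𝒞.edge s x)).card ≤ 9 * D

theorem stAdv (hPC : StPairChi) (hA : StCycA) (hB : StCycB) (h3 : StCyc3) (h4 : StCyc4)
    (h5 : StCyc5) (hGr : StGreedy) (hCo : StCount) (hPot : StPot) (hVal : StValid)
    (hEv : StEval) (hQf : StQf) (hYes : StYes) (hNo : StNo) (hSg : StSign) (hNZ : StNZ)
    (hTree : StTree) (hSz : StSizes) : StAdv := by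
  intro X V _ _ 𝒞 d k n hN hd hk hn h102 h204 hcard E D R A hadm hdec
  have hcl := classify hA hB h3 h4 h5 X V 𝒞 d k hN
  -- the values `y`
  obtain ⟨hcnt, hne⟩ := hCo X V 𝒞 d k hN hd
  obtain ⟨y, hy1, hy2⟩ := hGr (V × V) 𝒞.forms (33 * d ^ 3) hcnt hne
  have hd3 : (1 : ℤ) ≤ (d : ℤ) ^ 3 := by
    have : (1 : ℤ) ≤ d := by exact_mod_cast hd
    exact one_le_pow₀ this
  have hyb : ∀ e, 1 ≤ y e ∧ y e ≤ 34 * (d : ℤ) ^ 3 := by
    intro e
    refine ⟨(hy1 e).1, (hy1 e).2.trans ?_⟩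
    push_cast; linarith
  have hyB : ∀ g τ, 𝒞.Basic g τ → pair g y ≠ 0 := by
    intro g τ hg
    cases hg with
    | one x =>
      rw [(hPC X V 𝒞 y x).1]
      have : 0 < 𝒞.h y x := by
        unfold Cx.h
        exact Finset.sum_pos (fun s _ => by have := (hyb (𝒞.edge s x)).1; linarith)
          ⟨0, Finset.mem_univ _⟩
      exact this.ne'
    | two x z hxz hnb =>
      exact hy2 _ (mem_forms_two 𝒞 hxz hnb)
    | three x z w hxz hzw =>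
      exact hy2 _ (mem_forms_three 𝒞 hxz hzw)
  -- the potential
  obtain ⟨P, hP1, hP2⟩ := hPot X V 𝒞 (n ^ 2) (2 * n ^ 40) hcard
  set Y : ℤ := 34 * (d : ℤ) ^ 3 with hY
  set Q : ℤ := 2 * (n : ℤ) ^ 40 with hQ
  set L : ℤ := (n : ℤ) ^ 40 + 1 with hL
  set B : ℤ := 4 * Q * L * (6 * 2 ^ k * Y) + L with hBdef
  set M : ℤ := ((n : ℤ) ^ 2 * (2 * (2 * (n : ℤ) ^ 40) + 1)) ^ 4 + (3 * (n : ℤ) ^ 2) ^ 5 with hM
  have hsz := hSz n d k hn hd h204 hk Y Q L B M hY hQ hL hBdef hM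
  have hn0 : (0 : ℤ) ≤ (n : ℤ) := Int.natCast_nonneg n
  have hn40 : (1 : ℤ) ≤ (n : ℤ) ^ 40 := one_le_pow₀ (by exact_mod_cast (by omega : 1 ≤ n))
  have hQ2 : 2 ≤ Q := by rw [hQ]; linarith
  have hLpos : 0 < L := by rw [hL]; linarith
  have hYpos : 0 < Y := by rw [hY]; linarith
  have h2k : (0 : ℤ) < 2 ^ k := by positivity
  have hBpos : 0 ≤ B := by rw [hBdef]; positivity
  have h3Y : 3 * Y < 2 ^ k := by
    rw [hY]
    have : (102 * d ^ 3 : ℤ) < 2 ^ k := by exact_mod_cast h102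
    linarith
  have hPM : ∀ e, |pot P e| ≤ M := by
    intro e
    unfold pot
    have h1 := hP1 e.1
    have h2 := hP1 e.2
    have hM' : M = ((n ^ 2 : ℕ) * (2 * (2 * n ^ 40 : ℕ) + 1) : ℤ) ^ 4 + (3 * (n ^ 2 : ℕ) : ℤ) ^ 5 := by
      rw [hM]; push_cast; ring
    rw [abs_le, hM']
    constructor <;> linarith [h1.1, h1.2, h2.1, h2.2]
  have hP2' : ∀ f, Supp 𝒞 f → Small f → (∀ e, |f e| ≤ Q) → ¬ Circul f → pair f (pot P) ≠ 0 := by
    intro f a b c e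
    apply hP2 f a b _ e
    intro e'
    have := c e'
    rw [hQ] at this
    push_cast
    exact this
  -- the perturbations
  have hη : ∀ x₀, ∃ δ : V × V → ℤ, 𝒞.h δ x₀ = -(3 * 2 ^ k * 𝒞.h y x₀) ∧
      (∀ x, x ≠ x₀ → |𝒞.h δ x| ≤ 𝒞.h y x₀) ∧ ∀ e, |δ e| ≤ 2 ^ k * 𝒞.h y x₀ := by
    intro x₀
    have hpos : 0 ≤ 𝒞.h y x₀ := Finset.sum_nonneg fun s _ => by
      have := (hyb (𝒞.edge s x₀)).1; linarith
    obtain ⟨δ, a, b, c⟩ := hN.flip x₀ (𝒞.h y x₀).toNat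
    rw [Int.toNat_of_nonneg hpos] at a b c
    exact ⟨δ, a, b, c⟩
  choose δ hδ1 hδ2 hδ3 using hη
  have hη3 : ∀ x₀, 𝒞.h y x₀ ≤ 3 * Y := by
    intro x₀
    unfold Cx.h
    calc ∑ s, y (𝒞.edge s x₀) ≤ ∑ _s : Fin 3, Y := Finset.sum_le_sum fun s _ => (hyb _).2
      _ = 3 * Y := by simp
  -- the instances
  set W₀ : V × V → ℤ := fun e => B * pot P e + L * (3 * 2 ^ k * y e) with hW₀
  set W₁ : X → V × V → ℤ := fun x e => B * pot P e + L * (3 * 2 ^ k * y e) + L * δ x e with hW₁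
  have hb0 : ∀ e, |W₀ e| ≤ B * M + L * (3 * 2 ^ k * Y) := by
    intro e
    rw [hW₀]
    have h1 : |B * pot P e| ≤ B * M := by
      rw [abs_mul, abs_of_nonneg hBpos]
      exact mul_le_mul_of_nonneg_left (hPM e) hBpos
    have h2 : |L * (3 * 2 ^ k * y e)| ≤ L * (3 * 2 ^ k * Y) := by
      rw [abs_of_nonneg (by have := (hyb e).1; positivity)]
      apply mul_le_mul_of_nonneg_left _ hLpos.le
      apply mul_le_mul_of_nonneg_left (hyb e).2 (by positivity)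
    exact (abs_add_le _ _).trans (add_le_add h1 h2)
  have hb1 : ∀ x e, |W₁ x e| ≤ B * M + L * (3 * 2 ^ k * Y) + L * (2 ^ k * (3 * Y)) := by
    intro x e
    have h1 := hb0 e
    rw [hW₀] at h1
    rw [hW₁]
    have h2 : |L * δ x e| ≤ L * (2 ^ k * (3 * Y)) := by
      rw [abs_mul, abs_of_pos hLpos]
      apply mul_le_mul_of_nonneg_left _ hLpos.le
      exact (hδ3 x e).trans (mul_le_mul_of_nonneg_left (hη3 x) h2k.le)
    exact (abs_add_le _ _).trans (add_le_add h1 h2)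
  have hval0 : (E.inst W₀).Valid := hVal X V 𝒞 n E W₀ fun e => by
    refine (hb0 e).trans (le_trans ?_ hsz)
    have : 0 ≤ L * (2 ^ k * (3 * Y)) := by positivity
    linarith
  have hval1 : ∀ x, (E.inst (W₁ x)).Valid := fun x =>
    hVal X V 𝒞 n E (W₁ x) fun e => (hb1 x e).trans hsz
  -- the base instance is a no-instance
  have hno : ¬ (E.inst W₀).Yes := by
    intro hyes
    obtain ⟨f, hf1, hf2, hf3, hf4, hf5⟩ := hNo X V 𝒞 n E W₀ hyes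
    have hfQ : ∀ e, |f e| ≤ Q := fun e => (hf3 e).trans (by linarith)
    refine hNZ X V 𝒞 k P y Y Q L B f hyb hyB hQ2 hLpos le_rfl hf2 hfQ ?_ hf5
    by_cases hc : Circul f
    · right; exact hcl f hf1 hc hf2 hf4
    · left; exact hP2' f hf1 hf2 hfQ hc
  -- touching
  let touch : Query n → Finset X := fun q =>
    if h : ∃ g τ, ∃ α : ℤ, α ≠ 0 ∧ 𝒞.Basic g τ ∧ E.qf q = fun e => α * g e then
      h.choose_spec.choose else ∅
  have htc : ∀ q, (touch q).card ≤ 3 := by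
    intro q
    simp only [touch]
    split_ifs with h
    · obtain ⟨α, -, hb, -⟩ := h.choose_spec.choose_spec
      exact basic_card hb
    · simp
  refine hTree n D R 40 A hadm hdec X _ (E.inst W₀) (fun x => E.inst (W₁ x)) touch hval0 hno ?_
    htc ?_
  · intro x hx
    rw [Finset.mem_filter] at hx
    refine ⟨hval1 x, ?_, rfl⟩
    apply hYes X V 𝒞 n E (W₁ x) x hx.2
    have hpx : 𝒞.h (pot P) x = 0 := by
      unfold Cx.h Cx.edge pot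
      simp only [Fin.sum_univ_three, Fin.isValue, zero_add]
      have e1 : (1 : Fin 3) + 1 = 2 := rfl
      have e2 : (1 : Fin 3) + 2 = 0 := rfl
      have e3 : (2 : Fin 3) + 1 = 0 := rfl
      have e4 : (2 : Fin 3) + 2 = 1 := rfl
      rw [e1, e2, e3, e4]; ring
    have hlin : 𝒞.h (W₁ x) x = B * 𝒞.h (pot P) x + L * (3 * 2 ^ k * 𝒞.h y x) + L * 𝒞.h (δ x) x := by
      simp only [hW₁]
      unfold Cx.h
      simp only [Finset.mul_sum, Finset.sum_add_distrib]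
    rw [hlin, hpx, hδ1]; ring
  · intro q hq x hx hxt
    obtain ⟨hs1, hs2, hs3⟩ := hQf X V 𝒞 n 40 E q hn (by norm_num) hq
    have hsQ : ∀ e, |E.qf q e| ≤ Q := hs3
    unfold Query.ans
    rw [hEv, hEv]
    have hβ : |q.b| < L := by rw [hL]; linarith [hq.1]
    apply hSg X V 𝒞 k P y (δ x) x Y Q L B q.b (E.qf q) hyb h3Y hyB (hδ2 x) (hδ3 x) hQ2 hβ le_rfl
      hs2 hsQ
    by_cases h0 : E.qf q = 0
    · left; exact h0
    right
    by_cases hc : Circul (E.qf q)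
    · right
      have h := hcl (E.qf q) hs1 hc hs2 h0
      have hxt' : x ∉ h.choose_spec.choose := by
        simp only [touch] at hxt
        rwa [dif_pos h] at hxt
      obtain ⟨α, a, b, c⟩ := h.choose_spec.choose_spec
      exact ⟨_, _, α, a, b, c, hxt'⟩
    · left; exact hP2' _ hs1 hs2 hsQ hc

end Pool.Agent.Helper95.FL
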