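import Mathlib
import Pool.Agent.Helper95.FL.Stmts2
import Pool.Agent.Helper28.FL.CycA

set_option autoImplicit false

namespace Pool.Agent.Helper95.FL

open Pool.Agent.Helper28.FL
open scoped Classical

variable {V : Type} [Fintype V] {φ : V → V → ℤ}

lemma row_two (hrow : ∀ v, ∑ w, φ v w = 0) (x y z : V) (hyz : y ≠ z)
    (H : ∀ w, w ≠ y → w ≠ z → φ x w = 0) : φ x y + φ x z = 0 := by
  have h := hrow x
  rw [← Finset.sum_subset (Finset.subset_univ {y, z}) (fun w _ hw => by
    rw [Finset.mem_insert, Finset.mem_singleton, not_or] at hw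
    exact H w hw.1 hw.2)] at h
  rwa [Finset.sum_pair hyz] at h

lemma exists_prev (hanti : ∀ v w, φ w v = -φ v w) (hrow : ∀ v, ∑ w, φ v w = 0) {a b : V}
    (h : 0 < φ a b) : ∃ c, 0 < φ c a := by
  have hanti' : ∀ v w, (fun x y => φ y x) w v = -(fun x y => φ y x) v w := fun v w => hanti w v
  have hrow' : ∀ v, ∑ w, (fun x y => φ y x) v w = 0 := by
    intro v
    have h1 : ∀ w, φ w v = -φ v w := fun w => hanti v w
    show ∑ w, φ w v = 0
    rw [Finset.sum_congr rfl fun w _ => h1 w, Finset.sum_neg_distrib, hrow v, neg_zero]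
  exact exists_next (φ := fun x y => φ y x) hanti' hrow' (a := b) (b := a) h

theorem stCycB : StCycB := by
  intro X V _ 𝒞 f hs hci hne h4
  let φ : V → V → ℤ := fun v w => f (v, w) - f (w, v)
  have hanti : ∀ v w, φ w v = -φ v w := fun v w => by
    show f (w, v) - f (v, w) = -(f (v, w) - f (w, v)); ring
  have hrow : ∀ v, ∑ w, φ v w = 0 := by
    intro v
    have h1 := hci v
    unfold dvg at h1
    show ∑ w, (f (v, w) - f (w, v)) = 0
    rw [Finset.sum_sub_distrib]
    linarith
  have hty : ∀ a b, f (a, b) ≠ 0 → 𝒞.ty b = 𝒞.ty a + 1 := fun a b h => edge_ty 𝒞 (hs _ h)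
  have hex : ∃ a b, φ a b ≠ 0 := by
    have h1 : ∃ e, f e ≠ 0 := by
      by_contra hcon
      push Not at hcon
      exact hne (funext hcon)
    obtain ⟨⟨a, b⟩, hab⟩ := h1
    refine ⟨a, b, ?_⟩
    have h2 : f (b, a) = 0 := by
      by_contra h3
      have h4 := hty a b hab
      have h6 := hty b a h3
      rw [h4] at h6
      exact fin3_ne2 _ h6
    show f (a, b) - f (b, a) ≠ 0
    rw [h2, sub_zero]; exact hab
  -- positive pairs
  let Pos : Finset (V × V) := Finset.univ.filter fun p => 0 < φ p.1 p.2
  have hPosmem : ∀ a b, (a, b) ∈ Pos ↔ 0 < φ a b := fun a b => by simp [Pos]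
  have hPos : Pos.card ≤ 4 := by
    refine le_trans ?_ h4
    refine Finset.card_le_card_of_injOn (fun p => if f p ≠ 0 then p else p.swap) ?_ ?_
    · rintro ⟨a, b⟩ hp
      have hp' : 0 < f (a, b) - f (b, a) := (hPosmem a b).mp hp
      simp only [Finset.coe_filter, Finset.mem_univ, true_and, Set.mem_setOf_eq]
      by_cases h : f (a, b) = 0
      · rw [if_neg (by simpa using h)]
        show f (b, a) ≠ 0
        intro h'; rw [h, h'] at hp'; omega
      · rw [if_pos h]; exact h
    · rintro ⟨a, b⟩ hp ⟨c, d⟩ hq heq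
      have hp' : 0 < φ a b := (hPosmem a b).mp hp
      have hq' : 0 < φ c d := (hPosmem c d).mp hq
      have key : ∀ x y : V, 0 < φ x y → 0 < φ y x → False := by
        intro x y h1 h2
        have := hanti x y
        omega
      simp only at heq
      split_ifs at heq with h1 h2 h2
      · exact heq
      · rw [Prod.swap_prod_mk, Prod.mk.injEq] at heq
        obtain ⟨rfl, rfl⟩ := heq
        exact (key _ _ hp' hq').elim
      · rw [Prod.swap_prod_mk, Prod.mk.injEq] at heq
        obtain ⟨rfl, rfl⟩ := heq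
        exact (key _ _ hp' hq').elim
      · rw [Prod.swap_prod_mk, Prod.swap_prod_mk, Prod.mk.injEq] at heq
        obtain ⟨rfl, rfl⟩ := heq
        rfl
  -- a cycle of length 3 or 4
  obtain ⟨u, hu⟩ := exists_walk hanti hrow hex
  obtain ⟨v, L, hv, hL, hc⟩ : ∃ (v : ℕ → V) (L : ℕ), (∀ k, 0 < φ (v k) (v (k + 1))) ∧
      (L = 3 ∨ L = 4) ∧ v L = v 0 := by
    obtain ⟨i, hi, j, hj, hij, he⟩ := Finset.exists_ne_map_eq_of_card_lt_of_maps_to
      (s := Finset.range 5) (t := Pos) (by rw [Finset.card_range]; omega)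
      (f := fun k => (u k, u (k + 1))) (fun k _ => (hPosmem _ _).mpr (hu k))
    rw [Finset.mem_range] at hi hj
    rw [Prod.mk.injEq] at he
    have main : ∀ i j : ℕ, i < 5 → j < 5 → i < j → u i = u j → ∃ (v : ℕ → V) (L : ℕ),
        (∀ k, 0 < φ (v k) (v (k + 1))) ∧ (L = 3 ∨ L = 4) ∧ v L = v 0 := by
      intro i j hi hj hij he
      have h1 : j ≠ i + 1 := by rintro rfl; exact ne_one hanti hu i he
      have h2 : j ≠ i + 2 := by rintro rfl; exact ne_two hanti hu i he
      refine ⟨fun k => u (i + k), j - i, fun k => hu (i + k), by omega, ?_⟩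
      show u (i + (j - i)) = u (i + 0)
      rw [Nat.add_sub_cancel' hij.le, add_zero, he]
    rcases lt_or_gt_of_ne hij with h | h
    · exact main i j hi hj h he.1
    · exact main j i hj hi h he.1.symm
  have hL3 : 3 ≤ L := by omega
  have hL5 : L ≤ 5 := by omega
  have hinj := cycle_inj hanti hv hL3 hL5 hc
  have hirr : ∀ x, ¬ 0 < φ x x := by
    intro x h
    have := hanti x x
    omega
  -- all positive pairs are on the cycle
  have hinj2 : Set.InjOn (fun k => (v k, v (k + 1))) (Finset.range L : Set ℕ) := by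
    intro i hi j hj hij
    rw [Finset.coe_range] at hi hj
    simp only [Prod.mk.injEq] at hij
    rcases lt_trichotomy i j with h | h | h
    · exact absurd hij.1 (hinj i hi j hj h)
    · exact h
    · exact absurd hij.1.symm (hinj j hj i hi h)
  let Cy : Finset (V × V) := (Finset.range L).image fun k => (v k, v (k + 1))
  have hCyc : Cy.card = L := by
    rw [Finset.card_image_of_injOn hinj2, Finset.card_range]
  have hCyP : Cy ⊆ Pos := by
    intro p hp
    obtain ⟨k, _, rfl⟩ := Finset.mem_image.mp hp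
    exact (hPosmem _ _).mpr (hv k)
  have hadjv : ∀ k, 0 < φ (v k) (v (k + 1)) := hv
  have hPC : Pos = Cy := by
    symm
    apply Finset.eq_of_subset_of_card_le hCyP
    rw [hCyc]
    rcases hL with rfl | rfl
    · by_contra hcard
      have h5 : Pos.card = 4 := by omega
      -- one further pair
      obtain ⟨⟨a, b⟩, hab, hnot⟩ : ∃ p ∈ Pos, p ∉ Cy := by
        by_contra hcon
        push Not at hcon
        have := Finset.card_le_card (show Pos ⊆ Cy from hcon)
        omega
      have hPosU : Pos = insert (a, b) Cy := by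
        symm
        apply Finset.eq_of_subset_of_card_le
        · exact Finset.insert_subset hab hCyP
        · rw [Finset.card_insert_of_notMem hnot, hCyc, h5]
      have hab' : 0 < φ a b := (hPosmem a b).mp hab
      have hmem : ∀ x y, 0 < φ x y → (x, y) = (a, b) ∨ ∃ k < 3, v k = x ∧ v (k + 1) = y := by
        intro x y hxy
        have h := (hPosmem x y).mpr hxy
        rw [hPosU, Finset.mem_insert] at h
        rcases h with h | h
        · exact Or.inl h
        · obtain ⟨k, hk, he⟩ := Finset.mem_image.mp h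
          rw [Finset.mem_range] at hk
          rw [Prod.mk.injEq] at he
          exact Or.inr ⟨k, hk, he.1, he.2⟩
      obtain ⟨c, hc1⟩ := exists_next hanti hrow hab'
      obtain ⟨c', hc2⟩ := exists_prev hanti hrow hab'
      have hb : ∃ k < 3, v k = b := by
        rcases hmem _ _ hc1 with h | ⟨k, hk, h1, _⟩
        · rw [Prod.mk.injEq] at h
          rw [h.1] at hab'
          exact (hirr _ hab').elim
        · exact ⟨k, hk, h1⟩
      have ha : ∃ k < 3, v k = a := by
        rcases hmem _ _ hc2 with h | ⟨k, hk, _, h1⟩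
        · rw [Prod.mk.injEq] at h
          rw [← h.2] at hab'
          exact (hirr _ hab').elim
        · by_cases hk2 : k = 2
          · subst hk2
            exact ⟨0, by norm_num, by rw [← hc]; exact h1⟩
          · exact ⟨k + 1, by omega, h1⟩
      obtain ⟨i, hi, rfl⟩ := ha
      obtain ⟨j, hj, rfl⟩ := hb
      have h01 := hv 0
      have h12 := hv 1
      have h20 := hv 2
      rw [show 2 + 1 = 3 by rfl, hc] at h20
      simp only [zero_add, Nat.reduceAdd] at h01 h12
      have notCy : ∀ k < 3, ¬ (v i = v k ∧ v j = v (k + 1)) := by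
        intro k hk h
        apply hnot
        exact Finset.mem_image.mpr ⟨k, Finset.mem_range.mpr hk, by rw [h.1, h.2]⟩
      have key : ∀ x y : V, 0 < φ x y → 0 < φ y x → False := by
        intro x y h1 h2
        have := hanti x y
        omega
      have hij : (i = j) ∨ (i = 0 ∧ j = 1) ∨ (i = 1 ∧ j = 2) ∨ (i = 2 ∧ j = 0) ∨
        (i = 1 ∧ j = 0) ∨ (i = 2 ∧ j = 1) ∨ (i = 0 ∧ j = 2) := by omega
      rcases hij with rfl | ⟨rfl, rfl⟩ | ⟨rfl, rfl⟩ | ⟨rfl, rfl⟩ | ⟨rfl, rfl⟩ | ⟨rfl, rfl⟩ |
        ⟨rfl, rfl⟩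
      · exact hirr _ hab'
      · exact notCy 0 (by norm_num) ⟨rfl, rfl⟩
      · exact notCy 1 (by norm_num) ⟨rfl, rfl⟩
      · exact notCy 2 (by norm_num) ⟨rfl, hc.symm⟩
      · exact key _ _ h01 hab'
      · exact key _ _ h12 hab'
      · exact key _ _ h20 hab'
    · exact hPos
  have hcyc : ∀ x y, 0 < φ x y → ∃ k < L, v k = x ∧ v (k + 1) = y := by
    intro x y hxy
    have h := (hPosmem x y).mpr hxy
    rw [hPC] at h
    obtain ⟨k, hk, he⟩ := Finset.mem_image.mp h
    rw [Finset.mem_range] at hk
    rw [Prod.mk.injEq] at he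
    exact ⟨k, hk, he.1, he.2⟩
  -- the flow is constant along the cycle
  have hone : ∀ k, k + 1 < L → φ (v (k + 1)) (v (k + 2)) = φ (v k) (v (k + 1)) := by
    intro k hk
    have h := row_two hrow (v (k + 1)) (v (k + 2)) (v k) (ne_two hanti hv k).symm ?_
    · have h' := hanti (v k) (v (k + 1))
      linarith
    · intro w hw1 hw2
      by_contra hne0
      rcases lt_or_gt_of_ne hne0 with h | h
      · have h' : 0 < φ w (v (k + 1)) := by rw [hanti (v (k + 1)) w]; linarith
        obtain ⟨i, hi, h1, h2⟩ := hcyc _ _ h'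
        by_cases hi' : i + 1 = L
        · rw [hi', hc] at h2
          exact hinj 0 (by omega) (k + 1) hk (by omega) h2
        · have : i = k := by
            by_contra hik
            rcases lt_or_gt_of_ne hik with hlt | hgt
            · exact hinj (i + 1) (by omega) (k + 1) hk (by omega) h2
            · exact hinj (k + 1) hk (i + 1) (by omega) (by omega) h2.symm
          rw [this] at h1
          exact hw2 h1.symm
      · obtain ⟨i, hi, h1, h2⟩ := hcyc _ _ h
        have : i = k + 1 := by
          by_contra hik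
          rcases lt_or_gt_of_ne hik with hlt | hgt
          · exact hinj i hi (k + 1) hk hlt h1
          · exact hinj (k + 1) hk i hi hgt h1.symm
        rw [this] at h2
        exact hw1 h2.symm
  set α : ℤ := φ (v 0) (v 1) with hα
  have hαpos : 0 < α := hv 0
  have hconst : ∀ k < L, φ (v k) (v (k + 1)) = α := by
    intro k
    induction k with
    | zero => intro _; rfl
    | succ k ih => intro hk; rw [← ih (by omega)]; exact hone k hk
  have hφ : ∀ a b, φ a b = α * (cnt v L a b - cnt v L b a) := by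
    have hpos : ∀ a b, 0 < φ a b → φ a b = α * (cnt v L a b - cnt v L b a) := by
      intro a b hab
      obtain ⟨k, hk, h1, h2⟩ := hcyc a b hab
      have e1 : cnt v L a b = 1 := by
        apply le_antisymm (cnt_le_one hinj a b)
        unfold cnt
        have : (if v k = a ∧ v (k + 1) = b then (1 : ℤ) else 0) ≤
            ∑ k ∈ Finset.range L, if v k = a ∧ v (k + 1) = b then (1 : ℤ) else 0 :=
          Finset.single_le_sum (f := fun k => if v k = a ∧ v (k + 1) = b then (1 : ℤ) else 0)
            (fun i _ => by split_ifs <;> norm_num) (Finset.mem_range.mpr hk)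
        rwa [if_pos ⟨h1, h2⟩] at this
      have e2 : cnt v L b a = 0 := by
        by_contra h
        have := cnt_pos_imp hv b a h
        rw [hanti a b] at this
        omega
      rw [e1, e2, ← h1, ← h2, hconst k hk]; ring
    intro a b
    rcases lt_trichotomy (φ a b) 0 with h | h | h
    · have h' : 0 < φ b a := by rw [hanti a b]; linarith
      have := hpos b a h'
      rw [hanti b a, this]; ring
    · have e1 : cnt v L a b = 0 := by
        by_contra h1
        have := cnt_pos_imp hv a b h1
        omega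
      have e2 : cnt v L b a = 0 := by
        by_contra h1
        have := cnt_pos_imp hv b a h1
        rw [hanti a b] at this
        omega
      rw [h, e1, e2]; ring
    · exact hpos a b h
  have hadj : ∀ k, 𝒞.Adj (v k) (v (k + 1)) := by
    intro k
    have h1 : 0 < f (v k, v (k + 1)) - f (v (k + 1), v k) := hv k
    by_cases h2 : f (v k, v (k + 1)) = 0
    · have h3 : f (v (k + 1), v k) ≠ 0 := by
        intro h3; rw [h2, h3] at h1; omega
      exact adj_symm 𝒞 (edge_adj 𝒞 (hs _ h3))
    · exact edge_adj 𝒞 (hs _ h2)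
  have hf : ∀ a b, f (a, b) = α * ∑ k ∈ Finset.range L, 𝒞.el (v k) (v (k + 1)) (a, b) := by
    intro a b
    have h1 : f (a, b) - f (b, a) = α * (cnt v L a b - cnt v L b a) := hφ a b
    have h2 : ∑ k ∈ Finset.range L, 𝒞.el (v k) (v (k + 1)) (a, b) -
        ∑ k ∈ Finset.range L, 𝒞.el (v k) (v (k + 1)) (b, a) = cnt v L a b - cnt v L b a := by
      unfold cnt
      rw [← Finset.sum_sub_distrib, ← Finset.sum_sub_distrib]
      exact Finset.sum_congr rfl fun k _ => el_anti 𝒞 (hadj k).1 a b
    have h3 : ∀ a b, ¬ 𝒞.ty b = 𝒞.ty a + 1 →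
        ∑ k ∈ Finset.range L, 𝒞.el (v k) (v (k + 1)) (a, b) = 0 := by
      intro a b h
      refine Finset.sum_eq_zero fun k _ => ?_
      by_contra h4
      exact h (el_supp 𝒞 h4)
    have h4 : ∀ a b, ¬ 𝒞.ty b = 𝒞.ty a + 1 → f (a, b) = 0 := by
      intro a b h
      by_contra h5
      exact h (hty a b h5)
    by_cases h5 : 𝒞.ty b = 𝒞.ty a + 1
    · have h6 : ¬ 𝒞.ty a = 𝒞.ty b + 1 := by
        rw [h5]; exact fin3_ne2 _
      rw [h4 b a h6] at h1
      rw [h3 b a h6] at h2
      rw [← h2] at h1
      linarith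
    · rw [h3 a b h5, h4 a b h5, mul_zero]
  have a2 := ne_two hanti hv
  refine ⟨α, hαpos.ne', ?_⟩
  rcases hL with rfl | rfl
  · left
    refine ⟨v 0, v 1, v 2, ⟨hadj 0, hadj 1, ?_⟩, ?_⟩
    · have := hadj 2
      rwa [show 2 + 1 = 3 by rfl, hc] at this
    · funext ⟨a, b⟩
      rw [hf a b]
      simp only [Finset.sum_range_succ, Finset.sum_range_zero, zero_add, Cx.cyc3, Pi.add_apply,
        Nat.reduceAdd, hc]
  · right
    refine ⟨v 0, v 1, v 2, v 3, ⟨a2 0, a2 1, hadj 0, hadj 1, hadj 2, ?_⟩, ?_⟩
    · have := hadj 3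
      rwa [show 3 + 1 = 4 by rfl, hc] at this
    · funext ⟨a, b⟩
      rw [hf a b]
      simp only [Finset.sum_range_succ, Finset.sum_range_zero, zero_add, Cx.cyc4, Pi.add_apply,
        Nat.reduceAdd, hc]

end Pool.Agent.Helper95.FL
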