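import Mathlib
import Pool.Agent.Helper95.FL.Stmts2

set_option autoImplicit false

namespace Pool.Agent.Helper95.FL

open scoped Classical

theorem stGeneric : StGeneric := by
  intro V _ F hF
  set p : MvPolynomial V ℤ := ∏ g ∈ F, ∑ v, MvPolynomial.C (g v) * MvPolynomial.X v with hp
  have hne : p ≠ 0 := by
    rw [hp, Finset.prod_ne_zero_iff]
    intro g hg h0
    apply hF g hg
    funext v
    have := congrArg (MvPolynomial.eval (fun w => if w = v then (1 : ℤ) else 0)) h0
    simpa using this
  have hdeg : ∀ v, p.degreeOf v ≤ F.card := by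
    intro v
    rw [hp]
    refine (MvPolynomial.degreeOf_prod_le _ _ _).trans ?_
    calc ∑ g ∈ F, MvPolynomial.degreeOf v (∑ v, MvPolynomial.C (g v) * MvPolynomial.X v)
        ≤ ∑ _g ∈ F, 1 := by
          refine Finset.sum_le_sum fun g _ => ?_
          refine (MvPolynomial.degreeOf_sum_le _ _ _).trans ?_
          refine Finset.sup_le fun w _ => ?_
          refine (MvPolynomial.degreeOf_C_mul_le _ _ _).trans ?_
          rw [MvPolynomial.degreeOf_X]
          split_ifs <;> simp
      _ = F.card := by simp
  by_contra hcon
  push_neg at hcon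
  apply hne
  apply MvPolynomial.eq_zero_of_eval_zero_at_prod_finset p
    (fun _ => (Finset.range (F.card + 1)).image fun i : ℕ => (i : ℤ))
  · intro v
    rw [Finset.card_image_of_injective _ Nat.cast_injective, Finset.card_range]
    exact Nat.lt_succ_of_le (hdeg v)
  · intro x hx
    have hx' : ∀ v, 0 ≤ x v ∧ x v ≤ F.card := by
      intro v
      obtain ⟨i, hi, he⟩ := Finset.mem_image.mp (hx v)
      rw [Finset.mem_range] at hi
      constructor
      · rw [← he]; positivity
      · rw [← he]; exact_mod_cast Nat.lt_succ_iff.mp hi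
    obtain ⟨g, hg, h0⟩ := hcon x hx'
    rw [hp, map_prod]
    apply Finset.prod_eq_zero hg
    simpa using h0

end Pool.Agent.Helper95.FL
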