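import Mathlib
import Pool.Agent.Helper95.FL.StmtsG
import Pool.Agent.Helper95.FL.Adv

set_option autoImplicit false

/-!
# The main theorem (assembly)
-/

namespace Pool.Agent.Helper95.FL

open Pool.Agent.Helper22.ETModel
open scoped Classical

/-- The complex of a group with the geometry is nice. -/
lemma nice_of_geo (h1 : StInj) (h2 : StStar) (h3 : StClique3) (h4 : StChord4) (h5 : StChord5)
    (h6 : StFlip) (G : Type) [Group G] [Fintype G] (U H : Fin 3 → Subgroup G) (m k d : ℕ)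
    (hG : Geo U H m) (hk : 2 * k + 4 ≤ m) (hU : ∀ s, Nat.card (U s) = d) :
    (grpCx H).Nice d k where
  inj := h1 G U H m hG (by omega)
  star s x := by
    have h := h2 G U H m hG s x
    rw [hU] at h
    rw [← h]
    congr!
  clique3 := h3 G U H m hG
  chord4 v₁ v₂ v₃ v₄ a b c e f g := h4 G U H m hG v₁ v₂ v₃ v₄ ⟨a, b, c, e, f, g⟩
  chord5 v₁ v₂ v₃ v₄ v₅ a b c e f g h i j l :=
    h5 G U H m hG v₁ v₂ v₃ v₄ v₅ ⟨⟨a, b, c, e, f⟩, g, h, i, j, l⟩
  flip := h6 G U H m k hG hk

/-- The concrete group has the geometry. -/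
lemma geo_concrete (hI : StInter) (h3 : StL3) (h4 : StL4I) (h4' : StL4II) (h5 : StL5)
    (hg : StGirth) (K : Type) [Field K] (m : ℕ) (F : FD K m) : Geo F.U F.H m where
  inter := hI K m F
  l3 := h3 K m F
  l4I := h4 K m F
  l4II := h4' K m F
  l5 := h5 K m F
  girth := hg K m F

/-- The number of edges. -/
lemma edges_card (hE : StEdgeCount) {X V : Type} [Fintype X] [Fintype V] (𝒞 : Cx X V) (d : ℕ)
    (hd : ∀ s x, (Finset.univ.filter fun y => 𝒞.edge s y = 𝒞.edge s x).card = d) :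
    (Finset.univ.filter fun e => 𝒞.IsEdge e).card * d ≤ 3 * Fintype.card X := by
  have hsub : (Finset.univ.filter fun e => 𝒞.IsEdge e) ⊆
      (Finset.univ : Finset (Fin 3)).biUnion fun s => Finset.univ.image (𝒞.edge s) := by
    intro e he
    obtain ⟨s, x, hx⟩ := (Finset.mem_filter.mp he).2
    exact Finset.mem_biUnion.mpr ⟨s, Finset.mem_univ _, Finset.mem_image.mpr
      ⟨x, Finset.mem_univ _, hx⟩⟩
  calc (Finset.univ.filter fun e => 𝒞.IsEdge e).card * d
      ≤ (∑ s : Fin 3, (Finset.univ.image (𝒞.edge s)).card) * d :=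
        Nat.mul_le_mul_right _ ((Finset.card_le_card hsub).trans Finset.card_biUnion_le)
    _ = ∑ s : Fin 3, (Finset.univ.image (𝒞.edge s)).card * d := by rw [Finset.sum_mul]
    _ = ∑ _s : Fin 3, Fintype.card X := Finset.sum_congr rfl fun s _ => hE X V 𝒞 d hd s
    _ = 3 * Fintype.card X := by simp

/-- The main theorem. -/
def StFinal : Prop :=
  ∃ n₀ : ℕ, ∀ n : ℕ, n₀ ≤ n → ∀ (D R : ℕ) (A : Alg n D R), A.Admissible 40 → A.Decides →
    (n : ℝ) ^ 2 * 2 ^ (Real.sqrt (Real.logb 2 n) / 32) ≤ D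

theorem stFinal (hAdv : StAdv) (h1 : StInj) (h2 : StStar) (h3 : StClique3) (h4 : StChord4)
    (h5 : StChord5) (h6 : StFlip) (h7 : StCopies)
    (gI : StInter) (g3 : StL3) (g4 : StL4I) (g4' : StL4II) (g5 : StL5) (gW : StGirth)
    (gU : StCardU) (gB : StCardCh) (gF : StField) (hE : StEdgeCount) (hP : StPack)
    (hNum : StNum) : StFinal := by
  obtain ⟨n₀, hn₀⟩ := hNum
  refine ⟨n₀, fun n hn D R A hadm hdec => ?_⟩
  obtain ⟨hn3, p, m, k, P, hp, hodd, hm3, hk1, hkm, h102, h204, hPp, hPn, hPG, hfin⟩ := hn₀ n hn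
  obtain ⟨K, _, _, F, hK, hnorm⟩ := gF p m hp hodd hm3
  obtain ⟨hfinCh, hcardCh⟩ := gB K m F
  have := hfinCh
  let _ : Fintype F.Ch := Fintype.ofFinite _
  have hgeo := geo_concrete gI g3 g4 g4' g5 gW K m F
  have hUc : ∀ s, Nat.card (F.U s) = p + 1 := fun s => by rw [gU K m F s, hnorm]
  have hnice := nice_of_geo h1 h2 h3 h4 h5 h6 F.Ch F.U F.H m k (p + 1) hgeo hkm hUc
  let _ : ∀ t, Fintype (F.Ch ⧸ F.H t) := fun t => Fintype.ofFinite _
  set g : ℕ := Fintype.card F.Ch with hg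
  have hgpos : 0 < g := Fintype.card_pos
  have hgle : g ≤ p ^ (144 * m) := by
    rw [hg, ← Nat.card_eq_fintype_card]
    refine hcardCh.trans (le_of_eq ?_)
    rw [hK, ← pow_mul]; congr 1; ring
  have h18 : 18 * g ≤ P := (Nat.mul_le_mul_left _ hgle).trans hPG
  have hV : Fintype.card (Σ t : Fin 3, F.Ch ⧸ F.H t) ≤ P := by
    rw [Fintype.card_sigma]
    calc ∑ t : Fin 3, Fintype.card (F.Ch ⧸ F.H t) ≤ ∑ _t : Fin 3, g := by
          refine Finset.sum_le_sum fun t _ => ?_
          exact Fintype.card_le_of_surjective _ QuotientGroup.mk_surjective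
      _ = 3 * g := by simp
      _ ≤ P := by omega
  set N : ℕ := ((p + 1) * (P * (P - 1))) / (18 * g) with hN
  have hNmul : 18 * (N * g) ≤ (p + 1) * (P * (P - 1)) := by
    have := Nat.div_mul_le_self ((p + 1) * (P * (P - 1))) (18 * g)
    rw [← hN] at this
    linarith
  obtain ⟨E, hEmb⟩ := hP F.Ch (Σ t : Fin 3, F.Ch ⧸ F.H t) (grpCx F.H) (p + 1) (by omega)
    hnice.star P n N hPp hV hPn hNmul
  have hniceN := h7 F.Ch (Σ t : Fin 3, F.Ch ⧸ F.H t) (grpCx F.H) (p + 1) k N hnice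
  have hP2 : 2 ≤ P := hPp.two_le
  have hedge : (Finset.univ.filter fun e => ((grpCx F.H).copies N).IsEdge e).card ≤ n ^ 2 := by
    have h := edges_card hE ((grpCx F.H).copies N) (p + 1) hniceN.star
    rw [Fintype.card_prod, Fintype.card_fin, ← hg] at h
    have h' : 6 * ((Finset.univ.filter fun e =>
        ((grpCx F.H).copies N).IsEdge e).card * (p + 1)) ≤ (p + 1) * (P * (P - 1)) := by
      linarith
    have h'' : 6 * (Finset.univ.filter fun e =>
        ((grpCx F.H).copies N).IsEdge e).card ≤ P * (P - 1) := by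
      have : (p + 1) * (6 * (Finset.univ.filter fun e =>
        ((grpCx F.H).copies N).IsEdge e).card) ≤ (p + 1) * (P * (P - 1)) := by
          calc _ = 6 * ((Finset.univ.filter fun e =>
                ((grpCx F.H).copies N).IsEdge e).card * (p + 1)) := by ring
            _ ≤ _ := h'
      exact Nat.le_of_mul_le_mul_left this (by omega)
    have hPn' : P ≤ n := by omega
    calc _ ≤ P * (P - 1) := by omega
      _ ≤ n * n := Nat.mul_le_mul hPn' (by omega)
      _ = n ^ 2 := by ring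
  have hgood := hAdv (Fin N × F.Ch) (Fin N × (Σ t : Fin 3, F.Ch ⧸ F.H t))
    ((grpCx F.H).copies N) (p + 1) k n hniceN (by omega) hk1 hn3 h102 h204 hedge E D R A hadm hdec
  have hmain : N * g ≤ 18 * D := by
    calc N * g ≤ 2 * (Finset.univ.filter fun x : Fin N × F.Ch =>
          ∀ s, E.Good (((grpCx F.H).copies N).edge s x)).card := hEmb
      _ ≤ 2 * (9 * D) := Nat.mul_le_mul_left _ hgood
      _ = 18 * D := by ring
  -- lower bound for `N * g`
  have hlow : (p + 1) * (P * (P - 1)) < 18 * g * (N + 1) := by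
    have := Nat.lt_mul_div_succ ((p + 1) * (P * (P - 1))) (b := 18 * g) (by omega)
    rw [← hN] at this
    exact this
  have hPP : P ≤ P * (P - 1) := Nat.le_mul_of_pos_right _ (by omega)
  have h36 : 36 * g ≤ (p + 1) * (P * (P - 1)) := by
    calc 36 * g = 2 * (18 * g) := by ring
      _ ≤ (p + 1) * (P * (P - 1)) :=
        Nat.mul_le_mul (by have := hp.two_le; omega) (h18.trans hPP)
  have hlow2 : (p + 1) * (P * (P - 1)) ≤ 36 * (N * g) := by
    have : 18 * g * (N + 1) = 18 * (N * g) + 18 * g := by ring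
    omega
  have hfinal : (p + 1) * (P * (P - 1)) ≤ 648 * D := by
    calc _ ≤ 36 * (N * g) := hlow2
      _ ≤ 36 * (18 * D) := Nat.mul_le_mul_left _ hmain
      _ = 648 * D := by ring
  have hcast : ((p + 1) * (P * (P - 1)) : ℝ) ≤ 648 * D := by
    have : (((p + 1) * (P * (P - 1)) : ℕ) : ℝ) ≤ ((648 * D : ℕ) : ℝ) := by exact_mod_cast hfinal
    rw [Nat.cast_mul, Nat.cast_mul, Nat.cast_sub (by omega : 1 ≤ P)] at this
    push_cast at this
    exact this
  linarith

end Pool.Agent.Helper95.FL
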