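import Mathlib
import Pool.Agent.Helper95.FL.Stmts2
import Pool.Agent.Helper65.FL.StCyc3

set_option autoImplicit false

namespace Pool.Agent.Helper95.FL

open Pool.Agent.Helper22.ETModel
open scoped Classical

theorem stPairChi : StPairChi := by
  intro X V _ 𝒞 W x
  refine ⟨?_, ?_, ?_⟩
  · unfold pair Cx.h
    simp only [Helper65.FL.chi_eq_sum, Finset.sum_mul]
    rw [Finset.sum_comm]
    refine Finset.sum_congr rfl fun s _ => ?_
    rw [Finset.sum_eq_single (𝒞.edge s x)]
    · simp
    · intro e _ he
      rw [if_neg (fun h => he h.symm), zero_mul]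
    · intro h; exact absurd (Finset.mem_univ _) h
  · intro v
    unfold dvg
    have h1 : ∀ s : Fin 3, ∑ w, (if 𝒞.edge s x = (w, v) then (1 : ℤ) else 0)
        = if 𝒞.vert (s + 2) x = v then 1 else 0 := by
      intro s
      rw [Finset.sum_eq_single (𝒞.vert (s + 1) x)]
      · simp [Cx.edge, Prod.ext_iff]
      · intro w _ hw
        rw [if_neg]
        intro h
        exact hw (congrArg Prod.fst h).symm
      · intro h; exact absurd (Finset.mem_univ _) h
    have h2 : ∀ s : Fin 3, ∑ w, (if 𝒞.edge s x = (v, w) then (1 : ℤ) else 0)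
        = if 𝒞.vert (s + 1) x = v then 1 else 0 := by
      intro s
      rw [Finset.sum_eq_single (𝒞.vert (s + 2) x)]
      · simp [Cx.edge, Prod.ext_iff]
      · intro w _ hw
        rw [if_neg]
        intro h
        exact hw (congrArg Prod.snd h).symm
      · intro h; exact absurd (Finset.mem_univ _) h
    simp only [Helper65.FL.chi_eq_sum]
    rw [Finset.sum_comm, Finset.sum_comm (s := Finset.univ) (t := Finset.univ)
      (f := fun w s => if 𝒞.edge s x = (v, w) then (1 : ℤ) else 0)]
    rw [Finset.sum_congr rfl fun s _ => h1 s, Finset.sum_congr rfl fun s _ => h2 s]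
    simp only [Fin.sum_univ_three]
    have e1 : (0 : Fin 3) + 2 = 2 := rfl
    have e2 : (1 : Fin 3) + 2 = 0 := rfl
    have e3 : (2 : Fin 3) + 2 = 1 := rfl
    have e4 : (0 : Fin 3) + 1 = 1 := rfl
    have e5 : (1 : Fin 3) + 1 = 2 := rfl
    have e6 : (2 : Fin 3) + 1 = 0 := rfl
    rw [e1, e2, e3, e4, e5, e6]; ring
  · intro e he
    by_contra h
    apply he
    unfold Cx.chi
    rw [if_neg]
    rintro ⟨s, hs⟩
    exact h ⟨s, x, hs⟩

end Pool.Agent.Helper95.FL
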