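import Mathlib
import Pool.Agent.Helper95.FL.Main
import Pool.Agent.Helper95.FL.PairChi
import Pool.Agent.Helper95.FL.Generic
import Pool.Agent.Helper11.FL.ZT
import Pool.Agent.Helper15.FL.YesNo
import Pool.Agent.Helper28.FL.CycA
import Pool.Agent.Helper30.FL.Qf
import Pool.Agent.Helper38.FL.Tree
import Pool.Agent.Helper38.FL.Sign
import Pool.Agent.Helper39.FL.InjStar
import Pool.Agent.Helper4.FL.Pack
import Pool.Agent.Helper43.FL.Chord5
import Pool.Agent.Helper45.FL.Girth
import Pool.Agent.Helper55.FL.L4II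
import Pool.Agent.Helper59.FL.Copies
import Pool.Agent.Helper61.FL.EdgeSeq
import Pool.Agent.Helper64.FL.Count
import Pool.Agent.Helper65.FL.StCyc3
import Pool.Agent.Helper66.FL.L5
import Pool.Agent.Helper67.FL.C4
import Pool.Agent.Helper67.FL.L3
import Pool.Agent.Helper71.FL.Card
import Pool.Agent.Helper71.FL.Clique3
import Pool.Agent.Helper74.FL.L4I
import Pool.Agent.Helper74.FL.Uniq
import Pool.Agent.Helper78.FL.Inter
import Pool.Agent.Helper81.FL.Cyc4
import Pool.Agent.Helper81.FL.Sizes
import Pool.Agent.Helper95.FL.CycB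
import Pool.Agent.Helper83.FL.Flip
import Pool.Agent.Helper85.FL.Halve
import Pool.Agent.Helper87.FL.Cyc5
import Pool.Agent.Helper90.FL.ValidEval
import Pool.Agent.Helper94.FL.Field
import Pool.Agent.Helper94.FL.Pot
import Pool.Agent.Helper96.FL.Greedy
import Pool.Agent.Helper97.FL.N2

set_option autoImplicit false

/-!
# The main theorem, with all pieces
-/

namespace Pool.Agent.Helper95.FL

theorem adv : StAdv :=
  stAdv stPairChi Helper28.FL.stCycA stCycB Helper65.FL.stCyc3
    (Helper81.FL.stCyc4 Helper65.FL.stCyc3) (Helper87.FL.stCyc5 Helper65.FL.stCyc3)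
    Helper96.FL.stGreedy Helper64.FL.stCount (Helper94.FL.stPot stGeneric)
    Helper90.FL.stValid Helper90.FL.stEval Helper30.FLQf.stQf Helper15.FL.stYes Helper15.FL.stNo
    (Helper38.FL.stSign stPairChi) (Helper38.FL.stNZ stPairChi) Helper38.FL.stTree
    Helper81.FL.stSizes

theorem final : StFinal :=
  stFinal adv Helper39.FL.stInj Helper39.FL.stStar Helper71.FL.stClique3 Helper67.FLC4.stChord4
    Helper43.FL.stChord5 (Helper83.FL.stFlip (Helper85.FL.stHalve Helper74.FL.stUniq))
    Helper59.FL.stCopies stInter (Helper67.FL.stL3 Helper11.FL.stT)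
    (Helper74.FL.stL4I Helper11.FL.stZ) (Helper55.FL.stL4II Helper11.FL.stZ Helper11.FL.stT)
    (Helper66.FL.stL5 Helper11.FL.stZ Helper11.FL.stT) Helper45.FL.stGirth
    Helper71.FL.stCardU Helper71.FL.stCardCh Helper94.FL.stField Helper61.FL.stEdgeCount
    (Helper4.FL.stPack Helper61.FL.stEdgeCount Helper61.FL.stSeq) Helper97.FL.stNum

end Pool.Agent.Helper95.FL
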